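import Pool.Agent.Y735.LE.Mx

/-!
The assignment of columns to the conditions.
-/

set_option autoImplicit false

namespace Pool.Agent.Y735.LE

/-- Integers with given sum. -/
theorem pick {A : Type} [DecidableEq A] (s : Finset A) (hi : A → ℕ) :
    ∀ N : ℕ, N ≤ ∑ a ∈ s, hi a → ∃ x : A → ℕ, (∀ a, x a ≤ hi a) ∧ ∑ a ∈ s, x a = N := by
  induction s using Finset.induction_on with
  | empty =>
    intro N hN
    rw [Finset.sum_empty] at hN
    exact ⟨0, fun a => Nat.zero_le _, by simp; omega⟩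
  | insert a s ha ih =>
    intro N hN
    rw [Finset.sum_insert ha] at hN
    obtain ⟨x, hx1, hx2⟩ := ih (min N (∑ a ∈ s, hi a)) (min_le_right _ _)
    refine ⟨Function.update x a (N - min N (∑ a ∈ s, hi a)), fun b => ?_, ?_⟩
    · by_cases hb : b = a
      · rw [hb, Function.update_self]
        rcases le_total N (∑ a ∈ s, hi a) with h | h
        · rw [min_eq_left h]
          omega
        · rw [min_eq_right h]
          omega
      · rw [Function.update_of_ne hb]
        exact hx1 b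
    · rw [Finset.sum_insert ha, Function.update_self]
      have h1 : ∑ b ∈ s, Function.update x a (N - min N (∑ a ∈ s, hi a)) b = ∑ b ∈ s, x b :=
        Finset.sum_congr rfl fun b hb => Function.update_of_ne (by
          rintro rfl
          exact ha hb) _ _
      rw [h1, hx2]
      have := min_le_left N (∑ a ∈ s, hi a)
      omega

/-- Extension of an injection. -/
theorem extend_inj {S T : Type} [Fintype S] [DecidableEq S] [DecidableEq T] (S0 : Finset S)
    (t : Finset T) (f : S → T) (hf : ∀ x ∈ S0, f x ∈ t)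
    (hinj : ∀ x ∈ S0, ∀ y ∈ S0, f x = f y → x = y) (hc : Fintype.card S ≤ t.card) :
    ∃ g : S → T, Function.Injective g ∧ (∀ x, g x ∈ t) ∧ ∀ x ∈ S0, g x = f x := by
  have h1 : Fintype.card {x // x ∈ S0ᶜ} ≤ Fintype.card {y // y ∈ t \ S0.image f} := by
    rw [Fintype.card_coe, Fintype.card_coe, Finset.card_compl, Finset.card_sdiff_of_subset]
    · rw [Finset.card_image_of_injOn (fun x hx y hy => hinj x hx y hy)]
      omega
    · intro y hy
      obtain ⟨x, hx, rfl⟩ := Finset.mem_image.1 hy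
      exact hf x hx
  obtain ⟨e⟩ := Function.Embedding.nonempty_of_card_le h1
  have he : ∀ x : {x // x ∈ S0ᶜ}, ((e x : T) ∈ t ∧ (e x : T) ∉ S0.image f) := fun x =>
    Finset.mem_sdiff.1 (e x).2
  refine ⟨fun x => if h : x ∈ S0 then f x else e ⟨x, Finset.mem_compl.2 h⟩, ?_, ?_, ?_⟩
  · intro x y hxy
    dsimp only at hxy
    by_cases hx : x ∈ S0 <;> by_cases hy : y ∈ S0
    · rw [dif_pos hx, dif_pos hy] at hxy
      exact hinj x hx y hy hxy
    · rw [dif_pos hx, dif_neg hy] at hxy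
      exact absurd (hxy ▸ Finset.mem_image_of_mem f hx) (he _).2
    · rw [dif_neg hx, dif_pos hy] at hxy
      exact absurd (hxy.symm ▸ Finset.mem_image_of_mem f hy) (he _).2
    · rw [dif_neg hx, dif_neg hy] at hxy
      have h2 := e.injective (Subtype.ext hxy)
      exact congrArg Subtype.val h2
  · intro x
    dsimp only
    split_ifs with h
    · exact hf x h
    · exact (he _).1
  · intro x hx
    exact dif_pos hx

/-- The choice of special hypersurfaces. -/
theorem exists_sel {A : Type} (C : Finset A) (m : Bool → A → ℕ) :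
    ∃ sel : Bool → A → Prop, (∀ ε a, sel ε a → a ∉ C ∧ 0 < m ε a) ∧
      (∀ ε a b, sel ε a → sel ε b → a = b) ∧
      (∀ ε a, a ∉ C → 0 < m ε a → ∃ b, sel ε b) ∧
      ∀ ε a, sel ε a → 0 < m (!ε) a → sel (!ε) a := by
  by_cases h : ∃ a, a ∉ C ∧ ∀ ε, 0 < m ε a
  · obtain ⟨a0, h1, h2⟩ := h
    refine ⟨fun _ a => a = a0, ?_, ?_, ?_, ?_⟩
    · rintro ε a rfl
      exact ⟨h1, h2 ε⟩
    · intro ε a b ha hb
      rw [ha, hb]
    · intro ε a _ _
      exact ⟨a0, rfl⟩
    · intro ε a ha _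
      exact ha
  · push Not at h
    have h3 : ∀ ε a, a ∉ C → 0 < m ε a → m (!ε) a = 0 := by
      intro ε a ha hm
      obtain ⟨ε', h4⟩ := h a ha
      have h5 : ε' ≠ ε := by
        rintro rfl
        omega
      rw [← bool_eq h5]
      omega
    have h4 : ∀ ε, ∃ o : Option A, (∀ a, o = some a → a ∉ C ∧ 0 < m ε a) ∧
        (∀ a, a ∉ C → 0 < m ε a → ∃ b, o = some b) := by
      intro ε
      by_cases h5 : ∃ a, a ∉ C ∧ 0 < m ε a
      · obtain ⟨a, ha⟩ := h5
        refine ⟨some a, fun b hb => ?_, fun _ _ _ => ⟨a, rfl⟩⟩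
        rw [← Option.some_injective _ hb]
        exact ha
      · exact ⟨none, fun a ha => by simp at ha, fun a ha1 ha2 => absurd ⟨a, ha1, ha2⟩ h5⟩
    choose o ho1 ho2 using h4
    refine ⟨fun ε a => o ε = some a, ho1, ?_, ho2, ?_⟩
    · intro ε a b ha hb
      exact Option.some_injective _ (ha.symm.trans hb)
    · intro ε a ha hm
      obtain ⟨h5, h6⟩ := ho1 ε a ha
      have := h3 ε a h5 h6
      omega

/-- The assignment. -/
theorem exists_asg {n : ℕ} {A : Type} [Fintype A] [DecidableEq A] (hn : 1 ≤ n) {d : A → ℕ}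
    {m : Bool → A → ℕ} (C : Finset A) (hle : ∀ ε a, m ε a ≤ d a)
    (hC : ∀ a ∈ C, m false a + m true a = d a + 1)
    (hC' : ∀ a, a ∉ C → m false a + m true a ≤ d a)
    (hs : ∀ ε, ∑ a, m ε a ≤ n) (hsC : ∀ ε, ∑ a ∈ C, m ε a ≤ n - 1) :
    ∃ κ : Rw m → Fin (n + 1), Asg d m κ := by
  classical
  have hCb : ∀ ε, ∀ a ∈ C, m ε a + m (!ε) a = d a + 1 := by
    intro ε a ha
    cases ε
    · exact hC a ha
    · rw [add_comm]
      exact hC a ha
  have hCb' : ∀ ε a, a ∉ C → m ε a + m (!ε) a ≤ d a := by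
    intro ε a ha
    cases ε
    · exact hC' a ha
    · rw [add_comm]
      exact hC' a ha
  have hpos : ∀ ε, ∀ a ∈ C, 1 ≤ m ε a := by
    intro ε a ha
    have h1 := hCb ε a ha
    have h2 := hle (!ε) a
    omega
  obtain ⟨sel, hsel1, hsel2, hsel3, hsel4⟩ := exists_sel C m
  -- the columns for `C`
  have hcard2 : (Finset.univ \ {0, 1} : Finset (Fin (n + 1))).card = n - 1 := by
    rw [Finset.card_sdiff_of_subset (Finset.subset_univ _), Finset.card_univ, Fintype.card_fin,
      Finset.card_pair (one_ne_zero' hn).symm]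
    omega
  have hcard1 : ∀ ε, (Finset.univ \ {e2 ε} : Finset (Fin (n + 1))).card = n := by
    intro ε
    rw [Finset.card_sdiff_of_subset (Finset.subset_univ _), Finset.card_univ, Fintype.card_fin,
      Finset.card_singleton]
    omega
  have hCn : C.card ≤ n - 1 := by
    refine le_trans ?_ (hsC false)
    rw [Finset.card_eq_sum_ones]
    exact Finset.sum_le_sum fun a ha => hpos false a ha
  obtain ⟨ι, hι1, hι2⟩ : ∃ ι : A → Fin (n + 1), (∀ a ∈ C, ι a ≠ 0 ∧ ι a ≠ 1) ∧
      ∀ a ∈ C, ∀ b ∈ C, ι a = ι b → a = b := by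
    obtain ⟨U, hU⟩ : ∃ U : Finset (Fin (n + 1)), U = Finset.univ \ {0, 1} := ⟨_, rfl⟩
    have hUm : ∀ l, l ∈ U → l ≠ 0 ∧ l ≠ 1 := by
      intro l hl
      rw [hU, Finset.mem_sdiff, Finset.mem_insert, Finset.mem_singleton] at hl
      tauto
    have h1 : Fintype.card {a // a ∈ C} ≤ Fintype.card {l // l ∈ U} := by
      rw [Fintype.card_coe, Fintype.card_coe, hU, hcard2]
      exact hCn
    obtain ⟨e⟩ := Function.Embedding.nonempty_of_card_le h1
    refine ⟨fun a => if h : a ∈ C then e ⟨a, h⟩ else 0, fun a ha => ?_, fun a ha b hb hab => ?_⟩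
    · dsimp only
      rw [dif_pos ha]
      exact hUm _ (e ⟨a, ha⟩).2
    · dsimp only at hab
      rw [dif_pos ha, dif_pos hb] at hab
      have h2 := e.injective (Subtype.ext hab)
      exact congrArg Subtype.val h2
  have he2 : ∀ (ε : Bool) (l : Fin (n + 1)), l ≠ 0 → l ≠ 1 → l ≠ e2 ε := by
    intro ε l h1 h2
    cases ε
    · exact h1
    · exact h2
  -- the assignment on each side
  have hside : ∀ ε, ∃ g : ((a : A) × Fin (m ε a)) → Fin (n + 1), Function.Injective g ∧
      (∀ x, g x ≠ e2 ε) ∧ ((∀ a, ¬ sel ε a) → ∀ x, g x ≠ e2 (!ε)) ∧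
      (∀ x, (x.2 : ℕ) + 1 = m ε x.1 → x.1 ∈ C → g x = ι x.1) ∧
      (∀ x, (x.2 : ℕ) + 1 = m ε x.1 → sel ε x.1 → g x = e2 (!ε)) := by
    intro ε
    obtain ⟨S0, hS0⟩ : ∃ S0 : Finset ((a : A) × Fin (m ε a)), ∀ x, x ∈ S0 ↔
        (x.2 : ℕ) + 1 = m ε x.1 ∧ (x.1 ∈ C ∨ sel ε x.1) :=
      ⟨Finset.univ.filter fun x => (x.2 : ℕ) + 1 = m ε x.1 ∧ (x.1 ∈ C ∨ sel ε x.1), fun x => by
        rw [Finset.mem_filter]
        exact ⟨fun h => h.2, fun h => ⟨Finset.mem_univ _, h⟩⟩⟩
    obtain ⟨t, ht⟩ : ∃ t : Finset (Fin (n + 1)), t = if ∃ a, sel ε a then Finset.univ \ {e2 ε}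
      else Finset.univ \ {0, 1} := ⟨_, rfl⟩
    have htm : ∀ l, l ∈ t → l ≠ e2 ε := by
      intro l hl
      rw [ht] at hl
      split_ifs at hl
      · rw [Finset.mem_sdiff, Finset.mem_singleton] at hl
        exact hl.2
      · rw [Finset.mem_sdiff, Finset.mem_insert, Finset.mem_singleton] at hl
        exact he2 ε l (fun h => hl.2 (Or.inl h)) (fun h => hl.2 (Or.inr h))
    obtain ⟨g, hg1, hg2, hg3⟩ := extend_inj S0 t
      (fun x => if x.1 ∈ C then ι x.1 else e2 (!ε)) (by
        intro x hx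
        try dsimp only
        split_ifs with hxC
        · rw [ht]
          obtain ⟨h1, h2⟩ := hι1 _ hxC
          split_ifs
          · rw [Finset.mem_sdiff, Finset.mem_singleton]
            exact ⟨Finset.mem_univ _, he2 ε _ h1 h2⟩
          · rw [Finset.mem_sdiff, Finset.mem_insert, Finset.mem_singleton]
            exact ⟨Finset.mem_univ _, fun h => h.elim h1 h2⟩
        · have h1 : sel ε x.1 := (((hS0 x).1 hx).2).resolve_left hxC
          rw [ht, if_pos ⟨x.1, h1⟩, Finset.mem_sdiff, Finset.mem_singleton]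
          exact ⟨Finset.mem_univ _, (e2_ne hn ε).symm⟩) (by
        intro x hx y hy hxy
        try dsimp only at hxy
        obtain ⟨hx1, hx2⟩ := (hS0 x).1 hx
        obtain ⟨hy1, hy2⟩ := (hS0 y).1 hy
        have h1 : x.1 = y.1 := by
          by_cases hxC : x.1 ∈ C <;> by_cases hyC : y.1 ∈ C
          · rw [if_pos hxC, if_pos hyC] at hxy
            exact hι2 _ hxC _ hyC hxy
          · rw [if_pos hxC, if_neg hyC] at hxy
            obtain ⟨h1, h2⟩ := hι1 _ hxC
            exact absurd hxy (he2 _ _ h1 h2)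
          · rw [if_neg hxC, if_pos hyC] at hxy
            obtain ⟨h1, h2⟩ := hι1 _ hyC
            exact absurd hxy.symm (he2 _ _ h1 h2)
          · exact hsel2 ε _ _ (hx2.resolve_left hxC) (hy2.resolve_left hyC)
        obtain ⟨a, i⟩ := x
        obtain ⟨b, j⟩ := y
        try dsimp only at h1 hx1 hy1
        subst h1
        have h2 : i = j := Fin.ext (by omega)
        rw [h2]) (by
        rw [Fintype.card_sigma]
        simp only [Fintype.card_fin]
        rw [ht]
        split_ifs with h1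
        · rw [hcard1]
          exact hs ε
        · rw [hcard2]
          have h2 : ∑ a, m ε a = ∑ a ∈ C, m ε a := by
            symm
            refine Finset.sum_subset (Finset.subset_univ _) fun a _ ha => ?_
            by_contra h3
            exact h1 (hsel3 ε a ha (Nat.pos_of_ne_zero h3))
          rw [h2]
          exact hsC ε)
    refine ⟨g, hg1, fun x => htm _ (hg2 x), ?_, ?_, ?_⟩
    · intro h1 x h2
      have h3 := hg2 x
      rw [ht, if_neg (fun h => h1 _ h.choose_spec), Finset.mem_sdiff, Finset.mem_insert,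
        Finset.mem_singleton, h2] at h3
      apply h3.2
      cases ε
      · exact Or.inr rfl
      · exact Or.inl rfl
    · intro x hx hxC
      rw [hg3 x ((hS0 x).2 ⟨hx, Or.inl hxC⟩), if_pos hxC]
    · intro x hx hxs
      rw [hg3 x ((hS0 x).2 ⟨hx, Or.inr hxs⟩), if_neg (hsel1 ε _ hxs).1]
  choose g hg1 hg2 hg3 hg4 hg5 using hside
  refine ⟨fun x => g x.1 x.2, ⟨hle, ?_, ?_, ?_, ?_, ?_⟩⟩
  · intro ε a
    by_cases ha : a ∈ C
    · exact (hCb ε a ha).le
    · have := hCb' ε a ha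
      omega
  · intro x
    exact hg2 x.1 x.2
  · rintro ⟨ε, x⟩ ⟨ε', y⟩ h1 h2
    try dsimp only at h1 h2
    subst h1
    rw [hg1 ε h2]
  · rintro ⟨ε, a, i⟩ h1
    try dsimp only at h1 ⊢
    have h2 : ∃ b, sel ε b := by
      by_contra hcon
      push Not at hcon
      exact hg3 ε hcon _ h1
    obtain ⟨b, hb⟩ := h2
    obtain ⟨h3, h4⟩ := hsel1 ε b hb
    have h5 := hg5 ε ⟨b, ⟨m ε b - 1, by omega⟩⟩ (by dsimp only; omega) hb
    have h6 : (⟨a, i⟩ : (a : A) × Fin (m ε a)) = ⟨b, ⟨m ε b - 1, by omega⟩⟩ :=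
      hg1 ε (h1.trans h5.symm)
    have h7 : a = b := congrArg Sigma.fst h6
    subst h7
    have h8 : i = ⟨m ε a - 1, by omega⟩ := eq_of_heq (Sigma.mk.inj_iff.1 h6).2
    refine ⟨?_, hCb' ε a h3, fun j hj => ?_⟩
    · rw [h8]
      try dsimp only
      omega
    · have h9 := hg5 (!ε) ⟨a, j⟩ hj (hsel4 ε a hb (by omega))
      rw [Bool.not_not] at h9
      exact h9
  · rintro ⟨ε, a, i⟩ h1 h2 j hj
    try dsimp only at h1 h2 hj ⊢
    have h3 : a ∈ C := by
      by_contra hcon
      have := hCb' ε a hcon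
      omega
    rw [hg4 (!ε) ⟨a, j⟩ hj h3, hg4 ε ⟨a, i⟩ h2 h3]

/-- The orders of contact. -/
theorem exists_m {n : ℕ} {A : Type} [Fintype A] [DecidableEq A] {d : A → ℕ}
    (C : Finset A) (hd : ∀ c ∈ C, 1 ≤ d c) (hC : ∑ c ∈ C, (d c + 1) ≤ 2 * (n - 1)) :
    ∃ m : Bool → A → ℕ, (∀ ε a, m ε a ≤ d a) ∧
      (∀ a ∈ C, m false a + m true a = d a + 1) ∧
      (∀ a, a ∉ C → m false a + m true a ≤ d a) ∧
      (∀ ε, ∑ a, m ε a ≤ n) ∧ (∀ ε, ∑ a ∈ C, m ε a ≤ n - 1) ∧
      ∑ a, (d a - (m false a + m true a)) ≤ ∑ a, d a + C.card - 2 * n := by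
  have hsum : ∑ c ∈ C, (d c + 1) = ∑ c ∈ C, d c + C.card := by
    rw [Finset.sum_add_distrib, Finset.card_eq_sum_ones]
  have hcd : C.card ≤ ∑ c ∈ C, d c := by
    rw [Finset.card_eq_sum_ones]
    exact Finset.sum_le_sum fun c hc => hd c hc
  have hsub : ∑ c ∈ C, (d c - 1) + C.card = ∑ c ∈ C, d c := by
    rw [Finset.card_eq_sum_ones, ← Finset.sum_add_distrib]
    refine Finset.sum_congr rfl fun c hc => ?_
    have := hd c hc
    omega
  obtain ⟨T, hT⟩ : ∃ T, T = min (n - 1) (∑ c ∈ C, d c) := ⟨_, rfl⟩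
  have hT1 : T ≤ n - 1 := by rw [hT]; exact min_le_left _ _
  have hT2 : T ≤ ∑ c ∈ C, d c := by rw [hT]; exact min_le_right _ _
  have hT3 : C.card ≤ T := by
    rw [hT]
    refine le_min ?_ hcd
    omega
  have hT4 : ∑ c ∈ C, d c + C.card - T ≤ n - 1 := by
    rcases le_total (n - 1) (∑ c ∈ C, d c) with h | h
    · rw [hT, min_eq_left h]
      omega
    · rw [hT, min_eq_right h]
      omega
  obtain ⟨x, hx1, hx2⟩ := pick C (fun c => d c - 1) (T - C.card) (by
    have : ∑ a ∈ C, (fun c => d c - 1) a = ∑ c ∈ C, (d c - 1) := rfl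
    rw [this]
    omega)
  obtain ⟨E, hE⟩ : ∃ E, E = ∑ b ∈ Cᶜ, d b := ⟨_, rfl⟩
  have hdE : ∑ a, d a = ∑ c ∈ C, d c + E := by
    rw [hE]
    exact (Finset.sum_add_sum_compl C d).symm
  obtain ⟨y, hy1, hy2⟩ := pick Cᶜ d (min (n - T) E) (by rw [← hE]; exact min_le_right _ _)
  have hyE : ∑ b ∈ Cᶜ, (d b - y b) + min (n - T) E = E := by
    rw [← hy2, ← Finset.sum_add_distrib, hE]
    refine Finset.sum_congr rfl fun b _ => ?_
    have := hy1 b
    omega
  obtain ⟨T', hT'⟩ : ∃ T', T' = ∑ c ∈ C, d c + C.card - T := ⟨_, rfl⟩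
  obtain ⟨w, hw1, hw2⟩ := pick Cᶜ (fun b => d b - y b)
    (min (n - T') (∑ b ∈ Cᶜ, (d b - y b))) (min_le_right _ _)
  have hwE : ∑ b ∈ Cᶜ, (d b - (y b + w b)) + min (n - T') (∑ b ∈ Cᶜ, (d b - y b)) =
      ∑ b ∈ Cᶜ, (d b - y b) := by
    rw [← hw2, ← Finset.sum_add_distrib]
    refine Finset.sum_congr rfl fun b _ => ?_
    have := hw1 b
    try dsimp only at this
    omega
  obtain ⟨m, hm⟩ : ∃ m : Bool → A → ℕ, ∀ ε a, m ε a = if a ∈ C then
    (if ε then d a - x a else x a + 1) else (if ε then w a else y a) := ⟨_, fun _ _ => rfl⟩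
  have hmC : ∀ a ∈ C, m false a = x a + 1 ∧ m true a = d a - x a := by
    intro a ha
    rw [hm, hm, if_pos ha, if_pos ha]
    exact ⟨rfl, rfl⟩
  have hmC' : ∀ a, a ∉ C → m false a = y a ∧ m true a = w a := by
    intro a ha
    rw [hm, hm, if_neg ha, if_neg ha]
    exact ⟨rfl, rfl⟩
  have hsf : ∑ a ∈ C, m false a = T := by
    rw [Finset.sum_congr rfl fun a ha => (hmC a ha).1, Finset.sum_add_distrib, hx2,
      ← Finset.card_eq_sum_ones]
    omega
  have hst : ∑ a ∈ C, m true a = T' := by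
    have h1 : ∑ a ∈ C, m true a + ∑ a ∈ C, m false a = ∑ c ∈ C, d c + C.card := by
      rw [← Finset.sum_add_distrib, ← hsum]
      refine Finset.sum_congr rfl fun a ha => ?_
      obtain ⟨h1, h2⟩ := hmC a ha
      have := hx1 a
      have := hd a ha
      try dsimp only at *
      omega
    omega
  refine ⟨m, ?_, ?_, ?_, ?_, ?_, ?_⟩
  · intro ε a
    by_cases ha : a ∈ C
    · obtain ⟨h1, h2⟩ := hmC a ha
      have h3 := hx1 a
      have h4 := hd a ha
      try dsimp only at h3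
      cases ε
      · omega
      · omega
    · obtain ⟨h1, h2⟩ := hmC' a ha
      have h3 := hy1 a
      have h4 := hw1 a
      try dsimp only at h4
      cases ε
      · omega
      · omega
  · intro a ha
    obtain ⟨h1, h2⟩ := hmC a ha
    have h3 := hx1 a
    have h4 := hd a ha
    try dsimp only at h3
    omega
  · intro a ha
    obtain ⟨h1, h2⟩ := hmC' a ha
    have h3 := hy1 a
    have h4 := hw1 a
    try dsimp only at h4
    omega
  · intro ε
    rw [← Finset.sum_add_sum_compl C]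
    cases ε
    · rw [hsf, Finset.sum_congr rfl fun a ha => (hmC' a (Finset.mem_compl.1 ha)).1, hy2]
      have := min_le_left (n - T) E
      omega
    · rw [hst, Finset.sum_congr rfl fun a ha => (hmC' a (Finset.mem_compl.1 ha)).2, hw2]
      have := min_le_left (n - T') (∑ b ∈ Cᶜ, (d b - y b))
      omega
  · intro ε
    cases ε
    · rw [hsf]
      exact hT1
    · rw [hst, hT']
      exact hT4
  · rw [← Finset.sum_add_sum_compl C]
    have h1 : ∑ a ∈ C, (d a - (m false a + m true a)) = 0 := by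
      refine Finset.sum_eq_zero fun a ha => ?_
      obtain ⟨h1, h2⟩ := hmC a ha
      have h3 := hx1 a
      have h4 := hd a ha
      try dsimp only at h3
      omega
    have h2 : ∑ a ∈ Cᶜ, (d a - (m false a + m true a)) = ∑ a ∈ Cᶜ, (d a - (y a + w a)) := by
      refine Finset.sum_congr rfl fun a ha => ?_
      obtain ⟨h1, h2⟩ := hmC' a (Finset.mem_compl.1 ha)
      rw [h1, h2]
    rw [h1, h2, zero_add]
    rcases le_total (n - T) E with h3 | h3
    · rw [min_eq_left h3] at hyE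
      rcases le_total (n - T') (∑ b ∈ Cᶜ, (d b - y b)) with h4 | h4
      · rw [min_eq_left h4] at hwE
        omega
      · rw [min_eq_right h4] at hwE
        omega
    · rw [min_eq_right h3] at hyE
      rcases le_total (n - T') (∑ b ∈ Cᶜ, (d b - y b)) with h4 | h4
      · rw [min_eq_left h4] at hwE
        omega
      · rw [min_eq_right h4] at hwE
        omega

end Pool.Agent.Y735.LE
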