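import Pool.Agent.Y735.LE.LineF

/-!
The number of points of the boundary on a line.
-/

set_option autoImplicit false

open MvPolynomial LinearAlgebra.Projectivization

namespace Pool.Agent.Y735.LE

variable {K : Type} [Field K] {n : ℕ} {A : Type} [Fintype A] {d : A → ℕ} {m : Bool → A → ℕ}

/-- The values on the line. -/
theorem eval_line {P Q : Fin (n + 1) → K} {e : ℕ} {p : MvPolynomial (Fin (n + 1)) K}
    (hp : p.IsHomogeneous e) (y0 y1 : K) :
    eval (fun i => P i * y0 + Q i * y1) p = ∑ i ∈ Finset.range (e + 1),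
      coeff (MM e false i) (lin P Q p) * (y0 ^ (e - i) * y1 ^ i) := by
  have h1 := eval_lin P Q p ![y0, y1]
  have h2 := eval_two (n := 1) le_rfl (lin_hom P Q hp) (x := ![y0, y1]) (fun i h3 h4 => by
    exfalso
    have h5 : (i : ℕ) < 2 := i.2
    have h6 : (i : ℕ) ≠ 0 := fun h => h3 (Fin.ext h)
    have h7 : (i : ℕ) ≠ 1 := fun h => h4 (Fin.ext h)
    omega)
  rw [h1] at h2
  exact h2

theorem coeff_zero_of {P Q : Fin (n + 1) → K} {e : ℕ} {p : MvPolynomial (Fin (n + 1)) K}
    {mm : Bool → ℕ} (h1 : ∀ ε i, i < mm ε → coeff (MM e ε i) (lin P Q p) = 0) {i : ℕ} (hi : i ≤ e)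
    (h : i < mm false ∨ e - i < mm true) : coeff (MM e false i) (lin P Q p) = 0 := by
  rcases h with h | h
  · exact h1 false i h
  · have h2 := h1 true (e - i) h
    have h3 : MM (n := 1) e true (e - i) = MM e false (e - (e - i)) := MM_symm false (by omega)
    have h4 : e - (e - i) = i := by omega
    rw [h3, h4] at h2
    exact h2

/-- The factor. -/
theorem exists_factor {P Q : Fin (n + 1) → K} {e : ℕ} {p : MvPolynomial (Fin (n + 1)) K}
    (hp : p.IsHomogeneous e) {mm : Bool → ℕ}
    (h1 : ∀ ε i, i < mm ε → coeff (MM e ε i) (lin P Q p) = 0)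
    (h2 : coeff (MM e false (mm false)) (lin P Q p) ≠ 0) (h3 : mm false + mm true ≤ e) :
    ∃ h : Polynomial K, h ≠ 0 ∧ h.natDegree ≤ e - (mm false + mm true) ∧ ∀ t,
      eval (fun i => P i * 1 + Q i * t) p = t ^ (mm false) * h.eval t := by
  obtain ⟨c, hc⟩ : ∃ c : ℕ → K, ∀ i, c i = coeff (MM e false i) (lin P Q p) := ⟨_, fun _ => rfl⟩
  obtain ⟨h, hh⟩ : ∃ h : Polynomial K, h = ∑ j ∈ Finset.range (e - (mm false + mm true) + 1),
    Polynomial.monomial j (c (mm false + j)) := ⟨_, rfl⟩
  refine ⟨h, ?_, ?_, fun t => ?_⟩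
  · intro h0
    have h4 := congrArg (fun q : Polynomial K => q.coeff 0) h0
    rw [hh, Polynomial.finsetSum_coeff, Finset.sum_eq_single 0] at h4
    · rw [Polynomial.coeff_monomial, if_pos rfl, Polynomial.coeff_zero, add_zero, hc] at h4
      exact h2 h4
    · intro j _ hj
      rw [Polynomial.coeff_monomial, if_neg hj]
    · intro h5
      exact absurd (Finset.mem_range.2 (by omega)) h5
  · rw [hh]
    refine Polynomial.natDegree_sum_le_of_forall_le _ _ fun j hj => ?_
    refine (Polynomial.natDegree_monomial_le _).trans ?_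
    have := Finset.mem_range.1 hj
    omega
  · rw [eval_line hp, hh, Polynomial.eval_finsetSum, Finset.mul_sum]
    have h4 : ∀ j ∈ Finset.range (e - (mm false + mm true) + 1),
        t ^ mm false * Polynomial.eval t (Polynomial.monomial j (c (mm false + j))) =
          c (mm false + j) * t ^ (mm false + j) := by
      intro j _
      rw [Polynomial.eval_monomial, pow_add]
      ring
    rw [Finset.sum_congr rfl h4]
    have h5 : ∑ j ∈ Finset.range (e - (mm false + mm true) + 1),
        c (mm false + j) * t ^ (mm false + j) =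
          ∑ i ∈ Finset.Ico (mm false) (mm false + (e - (mm false + mm true) + 1)),
            c i * t ^ i := by
      rw [Finset.sum_Ico_eq_sum_range]
      have : mm false + (e - (mm false + mm true) + 1) - mm false =
          e - (mm false + mm true) + 1 := by omega
      rw [this]
    rw [h5]
    have h6 : ∀ i, coeff (MM e false i) (lin P Q p) * (1 ^ (e - i) * t ^ i) = c i * t ^ i := by
      intro i
      rw [one_pow, one_mul, hc]
    rw [Finset.sum_congr rfl fun i _ => h6 i]
    symm
    refine Finset.sum_subset ?_ ?_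
    · intro i hi
      rw [Finset.mem_Ico] at hi
      rw [Finset.mem_range]
      omega
    · intro i hi hi2
      rw [Finset.mem_range] at hi
      rw [Finset.mem_Ico] at hi2
      rw [hc, coeff_zero_of h1 (by omega) (by omega), zero_mul]

theorem lin_indep {P Q : Fin (n + 1) → K} (hPQ : P 0 * Q 1 - P 1 * Q 0 ≠ 0) {a b : K}
    (h : a • P + b • Q = 0) : a = 0 ∧ b = 0 := by
  have h0 := congrFun h 0
  have h1 := congrFun h 1
  simp only [Pi.add_apply, Pi.smul_apply, smul_eq_mul, Pi.zero_apply] at h0 h1
  constructor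
  · have : (P 0 * Q 1 - P 1 * Q 0) * a = 0 := by
      linear_combination Q 1 * h0 - Q 0 * h1
    exact (mul_eq_zero.1 this).resolve_left hPQ
  · have : (P 0 * Q 1 - P 1 * Q 0) * b = 0 := by
      linear_combination P 0 * h1 - P 1 * h0
    exact (mul_eq_zero.1 this).resolve_left hPQ

/-- The line and the number of points of the boundary on the line. -/
theorem count {P Q : Fin (n + 1) → K} (hPQ : P 0 * Q 1 - P 1 * Q 0 ≠ 0)
    {F : A → MvPolynomial (Fin (n + 1)) K} (hF : ∀ a, (F a).IsHomogeneous (d a)) {C : Finset A}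
    (h1 : ∀ a ε i, i < m ε a → coeff (MM (d a) ε i) (lin P Q (F a)) = 0)
    (h2 : ∀ a, m false a + m true a ≤ d a →
      coeff (MM (d a) false (m false a)) (lin P Q (F a)) ≠ 0)
    (hC : ∀ a ∈ C, m false a + m true a = d a + 1)
    (hC' : ∀ a, a ∉ C → m false a + m true a ≤ d a) :
    ∃ W : Submodule K (Fin (n + 1) → K), Module.finrank K W = 2 ∧
      (∀ c ∈ C, ∀ v ∈ W, eval v (F c) = 0) ∧
      {p : ℙ K (Fin (n + 1) → K) | p.rep ∈ W ∧ ∃ b, b ∉ C ∧ eval p.rep (F b) = 0}.encard ≤
        ((2 + ∑ b, (d b - (m false b + m true b)) : ℕ) : ℕ∞) := by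
  classical
  have hli : LinearIndependent K ![P, Q] := by
    rw [LinearIndependent.pair_iff]
    intro a b hab
    exact lin_indep hPQ hab
  have hmem : ∀ v, v ∈ Submodule.span K (Set.range ![P, Q]) → ∃ a b : K,
      v = fun i => P i * a + Q i * b := by
    intro v hv
    rw [Matrix.range_cons, Matrix.range_cons, Matrix.range_empty, Set.union_empty,
      Set.singleton_union, Submodule.mem_span_pair] at hv
    obtain ⟨a, b, hab⟩ := hv
    refine ⟨a, b, ?_⟩
    rw [← hab]
    funext i
    simp only [Pi.add_apply, Pi.smul_apply, smul_eq_mul]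
    ring
  refine ⟨Submodule.span K (Set.range ![P, Q]), ?_, ?_, ?_⟩
  · rw [finrank_span_eq_card hli, Fintype.card_fin]
  · intro c hc v hv
    obtain ⟨a, b, rfl⟩ := hmem v hv
    rw [eval_line (hF c)]
    refine Finset.sum_eq_zero fun i hi => ?_
    have h3 := hC c hc
    rw [Finset.mem_range] at hi
    rw [coeff_zero_of (mm := fun ε => m ε c) (h1 c) (by omega) (by omega), zero_mul]
  · -- the points
    have hQ0 : Q ≠ 0 := by
      rintro rfl
      apply hPQ
      simp
    have hPt : ∀ t : K, (fun i => P i * 1 + Q i * t) ≠ 0 := by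
      intro t h3
      have h4 : (1 : K) • P + t • Q = 0 := by
        rw [← h3]
        funext i
        simp only [Pi.add_apply, Pi.smul_apply, smul_eq_mul]
        ring
      exact one_ne_zero (lin_indep hPQ h4).1
    have hfac : ∀ b, ∃ h : Polynomial K, b ∉ C → h ≠ 0 ∧
        h.natDegree ≤ d b - (m false b + m true b) ∧ ∀ t,
          eval (fun i => P i * 1 + Q i * t) (F b) = t ^ (m false b) * h.eval t := by
      intro b
      by_cases hb : b ∈ C
      · exact ⟨0, fun h => absurd hb h⟩
      · obtain ⟨h, hh⟩ := exists_factor (hF b) (mm := fun ε => m ε b) (h1 b) (h2 b (hC' b hb))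
          (hC' b hb)
        exact ⟨h, fun _ => hh⟩
    choose h hh using hfac
    obtain ⟨S, hS⟩ : ∃ S : Finset K, S = insert 0 ((Finset.univ.filter fun b => b ∉ C).biUnion
      fun b => (h b).roots.toFinset) := ⟨_, rfl⟩
    obtain ⟨pt, hpt⟩ : ∃ pt : Option K → ℙ K (Fin (n + 1) → K), ∀ o, pt o = o.elim
      (Projectivization.mk K Q hQ0) (fun t => Projectivization.mk K _ (hPt t)) :=
      ⟨_, fun _ => rfl⟩
    have hsub : {p : ℙ K (Fin (n + 1) → K) | p.rep ∈ Submodule.span K (Set.range ![P, Q]) ∧
        ∃ b, b ∉ C ∧ eval p.rep (F b) = 0} ⊆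
          ((((insert none (S.image some)).image pt : Finset (ℙ K (Fin (n + 1) → K))) :
            Set (ℙ K (Fin (n + 1) → K)))) := by
      rintro p ⟨hpW, b, hb, hpb⟩
      obtain ⟨y0, y1, hy⟩ := hmem _ hpW
      rw [Finset.mem_coe, Finset.mem_image]
      by_cases hy0 : y0 = 0
      · refine ⟨none, Finset.mem_insert_self _ _, ?_⟩
        have hy1 : y1 ≠ 0 := by
          rintro rfl
          apply p.rep_nonzero
          rw [hy, hy0]
          funext i
          simp
        rw [hpt]
        change Projectivization.mk K Q hQ0 = p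
        rw [← p.mk_rep]
        rw [Projectivization.mk_eq_mk_iff']
        refine ⟨y1⁻¹, ?_⟩
        rw [hy, hy0]
        funext i
        simp only [Pi.smul_apply, smul_eq_mul]
        field_simp
        ring
      · have hsc : p.rep = y0 • (fun i => P i * 1 + Q i * (y1 / y0)) := by
          rw [hy]
          funext i
          simp only [Pi.smul_apply, smul_eq_mul]
          field_simp
        refine ⟨some (y1 / y0), ?_, ?_⟩
        · refine Finset.mem_insert_of_mem (Finset.mem_image_of_mem _ ?_)
          rw [hS]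
          by_cases ht : y1 / y0 = 0
          · rw [ht]
            exact Finset.mem_insert_self _ _
          · refine Finset.mem_insert_of_mem ?_
            rw [Finset.mem_biUnion]
            refine ⟨b, Finset.mem_filter.2 ⟨Finset.mem_univ _, hb⟩, ?_⟩
            rw [Multiset.mem_toFinset, Polynomial.mem_roots (hh b hb).1]
            have h5 : eval (fun i => P i * 1 + Q i * (y1 / y0)) (F b) = 0 := by
              rw [hsc] at hpb
              have h7 : eval (y0 • fun i => P i * 1 + Q i * (y1 / y0)) (F b) =
                  y0 ^ d b * eval (fun i => P i * 1 + Q i * (y1 / y0)) (F b) :=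
                Pool.Agent.TH145.GH.eval_smul_hom (hF b) _ _
              rw [h7] at hpb
              exact (mul_eq_zero.1 hpb).resolve_left (pow_ne_zero _ hy0)
            rw [(hh b hb).2.2] at h5
            exact (mul_eq_zero.1 h5).resolve_left (pow_ne_zero _ ht)
        · rw [hpt]
          change Projectivization.mk K _ (hPt (y1 / y0)) = p
          rw [← p.mk_rep, Projectivization.mk_eq_mk_iff']
          refine ⟨y0⁻¹, ?_⟩
          rw [hsc, smul_smul, inv_mul_cancel₀ hy0, one_smul]
    refine (Set.encard_le_encard hsub).trans ?_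
    rw [Set.encard_coe_eq_coe_finsetCard, Nat.cast_le]
    refine Finset.card_image_le.trans ((Finset.card_insert_le _ _).trans ?_)
    have h3 : (S.image some).card ≤ S.card := Finset.card_image_le
    have h4 : S.card ≤ ((Finset.univ.filter fun b => b ∉ C).biUnion
        fun b => (h b).roots.toFinset).card + 1 := by
      rw [hS]
      exact Finset.card_insert_le _ _
    have h5 : ((Finset.univ.filter fun b => b ∉ C).biUnion
        fun b => (h b).roots.toFinset).card ≤ ∑ b ∈ Finset.univ.filter (fun b => b ∉ C),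
          (d b - (m false b + m true b)) := by
      refine Finset.card_biUnion_le.trans (Finset.sum_le_sum fun b hb => ?_)
      have hb' := (Finset.mem_filter.1 hb).2
      exact (Multiset.toFinset_card_le _).trans
        ((Polynomial.card_roots' _).trans (hh b hb').2.1)
    have h6 : ∑ b ∈ Finset.univ.filter (fun b => b ∉ C), (d b - (m false b + m true b)) ≤
        ∑ b, (d b - (m false b + m true b)) :=
      Finset.sum_le_sum_of_subset (Finset.filter_subset _ _)
    omega

end Pool.Agent.Y735.LE
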