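import Pool.Agent.Y735.LE.Slv
import Pool.Agent.Y735.Nabla
import Pool.Agent.W602.GT.Der

/-!
Algebraically independent coefficients of the forms for which a line is highly tangent at two
points.
-/

set_option autoImplicit false

open MvPolynomial Pool.Agent.W603.LV Pool.Agent.W603.PV Pool.Agent.TH145.GH

namespace Pool.Agent.Y735.LE

section indep

variable {σ F K : Type} [Field F] [CharZero F] [Field K] [Algebra F K]

/-- Copied from `Pool.Agent.Y179.KZ.AlgK`. -/
theorem eq_C_of_pderiv (P : MvPolynomial σ F) (h : ∀ i, pderiv i P = 0) : P = C (coeff 0 P) := by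
  classical
  ext m
  rw [coeff_C]
  split_ifs with hm
  · rw [← hm]
  · by_contra hne
    obtain ⟨i, hi⟩ : ∃ i, m i ≠ 0 := by
      by_contra hcon
      push Not at hcon
      exact hm (by ext i; simp [hcon i])
    have h1 : coeff (m - Finsupp.single i 1) (pderiv i P) = 0 := by rw [h i]; simp
    have h3 : m - (Finsupp.single i 1 : σ →₀ ℕ) + Finsupp.single i 1 = m :=
      tsub_add_cancel_of_le (by
        rw [Finsupp.single_le_iff]; omega)
    rw [coeff_pderiv, h3] at h1
    rcases mul_eq_zero.1 h1 with h4 | h4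
    · exact hne h4
    · have : ((m i : ℕ) : F) ≠ 0 := by exact_mod_cast hi
      apply this
      have h5 : (m - (Finsupp.single i 1 : σ →₀ ℕ)) i + 1 = m i := by
        simp; omega
      rw [← h5]; push_cast; exact h4

omit [CharZero F] in
/-- Copied from `Pool.Agent.Y179.KZ.AlgK`. -/
theorem totalDegree_pderiv_lt (P : MvPolynomial σ F) (i : σ) (h : pderiv i P ≠ 0) :
    (pderiv i P).totalDegree < P.totalDegree := by
  classical
  have key : ∀ m ∈ (pderiv i P).support, (m.sum fun _ e => e) + 1 ≤ P.totalDegree := by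
    intro m hm
    rw [mem_support_iff, coeff_pderiv] at hm
    have h1 : m + Finsupp.single i 1 ∈ P.support := by
      rw [mem_support_iff]
      intro h0
      rw [h0, zero_mul] at hm
      exact hm rfl
    have h2 := le_totalDegree h1
    rw [Finsupp.sum_add_index' (by simp) (by simp)] at h2
    simpa using h2
  obtain ⟨m, hm, hm2⟩ := (totalDegree_eq (pderiv i P)).symm ▸
    Finset.exists_mem_eq_sup (pderiv i P).support (by
      rwa [Finset.nonempty_iff_ne_empty, Ne, support_eq_empty]) (fun m => m.toMultiset.card)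
  have := key m hm
  rw [hm2, Finsupp.card_toMultiset]
  exact this

omit [CharZero F] in
/-- The derivatives of polynomials. -/
theorem der_aeval [DecidableEq σ] {y : σ → K} {k : σ} (D : Derivation F K K)
    (hD : ∀ i, D (y i) = if i = k then 1 else 0) (a : MvPolynomial σ F) :
    D (aeval y a) = aeval y (pderiv k a) := by
  induction a using MvPolynomial.induction_on with
  | C c =>
    rw [aeval_C, D.map_algebraMap, pderiv_C, map_zero]
  | add p q hp hq =>
    rw [map_add, map_add, map_add, map_add, hp, hq]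
  | mul_X p i hp =>
    rw [map_mul, D.leibniz, hp, aeval_X, hD, (pderiv k).leibniz, map_add, pderiv_X]
    simp only [smul_eq_mul, map_mul, aeval_X]
    by_cases hik : i = k
    · subst hik
      simp
    · rw [if_neg hik, Pi.single_apply, if_neg hik]
      simp

/-- Elements with dual derivations are algebraically independent. -/
theorem indep_of_der [DecidableEq σ] (z : σ → K) (E : σ → Derivation F K K)
    (hE : ∀ k i, E k (z i) = if i = k then 1 else 0) : AlgebraicIndependent F z := by
  rw [algebraicIndependent_iff]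
  intro f
  induction hn : f.totalDegree using Nat.strong_induction_on generalizing f with
  | _ N ih =>
    intro hf
    have h1 : ∀ k, pderiv k f = 0 := by
      intro k
      by_contra hne
      refine hne (ih _ (hn ▸ totalDegree_pderiv_lt f k hne) (pderiv k f) rfl ?_)
      rw [← der_aeval (E k) (hE k), hf, map_zero]
    have h2 := eq_C_of_pderiv f h1
    rw [h2, aeval_C] at hf
    rw [h2, (map_eq_zero _).1 hf, map_zero]

/-- Derivations can be prescribed on independent elements. -/
theorem exists_der_indep {ι : Type} {t : ι → K} (ht : AlgebraicIndependent F t) (c : ι → K) :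
    ∃ D : Derivation F K K, ∀ i, D (t i) = c i := by
  classical
  obtain ⟨s, hs, hb⟩ := exists_isTranscendenceBasis_superset (R := F) (s := Set.range t)
    ht.coe_range
  have hinj : Function.Injective t := ht.injective
  obtain ⟨D, hD⟩ := Pool.Agent.W602.GT.exists_der ((↑) : s → K) hb
    (fun x => if h : ∃ i, t i = x then c h.choose else 0)
  refine ⟨D, fun i => ?_⟩
  have h1 := hD ⟨t i, hs ⟨i, rfl⟩⟩
  have h2 : ∃ j, t j = ((⟨t i, hs ⟨i, rfl⟩⟩ : s) : K) := ⟨i, rfl⟩
  rw [dif_pos h2] at h1
  have h3 : h2.choose = i := hinj h2.choose_spec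
  rw [h3] at h1
  exact h1

end indep

section main

variable {k Ω : Type} [Field k] [Field Ω] [Algebra k Ω] {n : ℕ}

/-- The matrix with columns `P`, `Q`, `e_2`, ..., `e_n`. -/
def gm (P Q : Fin (n + 1) → Ω) : Matrix (Fin (n + 1)) (Fin (n + 1)) Ω :=
  fun i j => if j = 0 then P i else if j = 1 then Q i else if i = j then 1 else 0

theorem gm_mulVec (hn : 1 ≤ n) (P Q w : Fin (n + 1) → Ω) (i : Fin (n + 1)) :
    (gm P Q).mulVec w i = P i * w 0 + Q i * w 1 + if i = 0 ∨ i = 1 then 0 else w i := by
  classical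
  have h10 := one_ne_zero' hn
  have h1 : ∀ j, gm P Q i j * w j = (if j = 0 then P i * w 0 else 0) +
      (if j = 1 then Q i * w 1 else 0) +
      (if j = i then (if i = 0 ∨ i = 1 then 0 else w i) else 0) := by
    intro j
    unfold gm
    by_cases hj0 : j = 0
    · rw [if_pos hj0, if_pos hj0, hj0, if_neg h10.symm]
      by_cases hi : (0 : Fin (n + 1)) = i
      · rw [if_pos hi, if_pos (Or.inl hi.symm)]
        ring
      · rw [if_neg hi]
        ring
    · by_cases hj1 : j = 1
      · rw [if_neg hj0, if_neg hj0, if_pos hj1, if_pos hj1, hj1]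
        by_cases hi : (1 : Fin (n + 1)) = i
        · rw [if_pos hi, if_pos (Or.inr hi.symm)]
          ring
        · rw [if_neg hi]
          ring
      · rw [if_neg hj0, if_neg hj0, if_neg hj1, if_neg hj1]
        by_cases hi : i = j
        · rw [if_pos hi, if_pos hi.symm, hi, if_neg (by tauto)]
          ring
        · rw [if_neg hi, if_neg (Ne.symm hi)]
          ring
  change ∑ j, gm P Q i j * w j = _
  rw [Finset.sum_congr rfl fun j _ => h1 j, Finset.sum_add_distrib, Finset.sum_add_distrib,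
    Finset.sum_ite_eq', if_pos (Finset.mem_univ _), Finset.sum_ite_eq',
    if_pos (Finset.mem_univ _), Finset.sum_ite_eq', if_pos (Finset.mem_univ _)]

theorem gm_det (hn : 1 ≤ n) {P Q : Fin (n + 1) → Ω} (h : P 0 * Q 1 - P 1 * Q 0 ≠ 0) :
    (gm P Q).det ≠ 0 := by
  intro h0
  obtain ⟨w, hw, hw0⟩ := Matrix.exists_mulVec_eq_zero_iff.2 h0
  apply hw
  have h1 := fun i => (gm_mulVec hn P Q w i).symm.trans (congrFun hw0 i)
  have h2 := h1 0
  have h3 := h1 1
  rw [if_pos (Or.inl rfl)] at h2
  rw [if_pos (Or.inr rfl)] at h3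
  simp only [Pi.zero_apply, add_zero] at h2 h3
  have h4 : w 0 = 0 := by
    have : (P 0 * Q 1 - P 1 * Q 0) * w 0 = 0 := by
      linear_combination Q 1 * h2 - Q 0 * h3
    exact (mul_eq_zero.1 this).resolve_left h
  have h5 : w 1 = 0 := by
    have : (P 0 * Q 1 - P 1 * Q 0) * w 1 = 0 := by
      linear_combination P 0 * h3 - P 1 * h2
    exact (mul_eq_zero.1 this).resolve_left h
  funext i
  have h6 := h1 i
  rw [h4, h5] at h6
  by_cases hi : i = 0 ∨ i = 1
  · rcases hi with rfl | rfl
    · exact h4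
    · exact h5
  · rw [if_neg hi] at h6
    simpa using h6

/-- Linear substitution. -/
noncomputable def subst (g : Matrix (Fin (n + 1)) (Fin (n + 1)) Ω)
    (p : MvPolynomial (Fin (n + 1)) Ω) : MvPolynomial (Fin (n + 1)) Ω :=
  aeval (fun i => ∑ j, C (g i j) * X j) p

theorem eval_subst (g : Matrix (Fin (n + 1)) (Fin (n + 1)) Ω)
    (p : MvPolynomial (Fin (n + 1)) Ω) (y : Fin (n + 1) → Ω) :
    eval y (subst g p) = eval (g.mulVec y) p := by
  unfold subst
  rw [aeval_def, algebraMap_eq]
  have h1 := eval₂_comp_left (eval y) (C : Ω →+* MvPolynomial (Fin (n + 1)) Ω)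
    (fun i => ∑ j, C (g i j) * X j) p
  rw [h1]
  have h2 : (eval y).comp (C : Ω →+* MvPolynomial (Fin (n + 1)) Ω) = RingHom.id Ω := by
    ext a
    simp
  rw [h2]
  have h3 : (⇑(eval y) ∘ fun i => ∑ j, C (g i j) * X j) = g.mulVec y := by
    funext i
    rw [Function.comp_apply, map_sum]
    exact Finset.sum_congr rfl fun j _ => by rw [map_mul, eval_C, eval_X]
  rw [h3]
  exact (eval₂_id p)

theorem subst_hom (g : Matrix (Fin (n + 1)) (Fin (n + 1)) Ω) {p : MvPolynomial (Fin (n + 1)) Ω}
    {d : ℕ} (hp : p.IsHomogeneous d) : (subst g p).IsHomogeneous d := by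
  have h1 : ∀ i, (∑ j, C (g i j) * X j : MvPolynomial (Fin (n + 1)) Ω).IsHomogeneous 1 := by
    intro i
    refine IsHomogeneous.sum _ _ _ fun j _ => ?_
    have := (isHomogeneous_C (Fin (n + 1)) (g i j)).mul (isHomogeneous_X Ω j)
    rwa [zero_add] at this
  have h2 := hp.aeval (fun i => ∑ j, C (g i j) * X j) h1
  rwa [one_mul] at h2

theorem der_mulVec (D : Derivation ℤ Ω Ω) (g : Matrix (Fin (n + 1)) (Fin (n + 1)) Ω)
    (w : Fin (n + 1) → Ω) (i : Fin (n + 1)) :
    D (g.mulVec w i) = g.mulVec (fun j => D (w j)) i + ∑ j, D (g i j) * w j := by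
  change D (∑ j, g i j * w j) = ∑ j, g i j * D (w j) + _
  rw [map_sum, ← Finset.sum_add_distrib]
  refine Finset.sum_congr rfl fun j _ => ?_
  rw [D.leibniz, smul_eq_mul, smul_eq_mul]
  ring

theorem eval_cDf (δ : Derivation ℤ Ω Ω) (p : MvPolynomial (Fin (n + 1)) Ω)
    (x : Fin (n + 1) → Ω) :
    eval x (cDf δ p) = ∑ u ∈ p.support, δ (p.coeff u) * mon x u := by
  unfold cDf
  rw [map_sum]
  exact Finset.sum_congr rfl fun u _ => Pool.Agent.TH145.GH.eval_monomial' x u _

variable {A : Type} {d : A → ℕ} {m : Bool → A → ℕ} {κ : Rw m → Fin (n + 1)}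

theorem tilde_hom {z : A → (Fin (n + 1) →₀ ℕ) → Ω} {Ft : A → MvPolynomial (Fin (n + 1)) Ω}
    (hF : ∀ a I, (Ft a).coeff I = cut d m z a I) (a : A) : (Ft a).IsHomogeneous (d a) := by
  intro I hI
  rw [hF] at hI
  by_contra hcon
  apply hI
  unfold cut
  rw [if_neg]
  rintro ⟨h1, -⟩
  apply hcon
  rw [Finsupp.degree_eq_weight_one] at h1
  exact h1

/-- Dual derivations. -/
theorem duals [Fintype A] [CharZero k] (hn : 1 ≤ n) (hκ : Asg d m κ)
    {P Q : Fin (n + 1) → Ω} {f : A × (Fin (n + 1) →₀ ℕ) → Ω}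
    (hind : AlgebraicIndependent k (Sum.elim P (Sum.elim Q f)))
    (hdet : P 0 * Q 1 - P 1 * Q 0 ≠ 0)
    {Ft : A → MvPolynomial (Fin (n + 1)) Ω}
    (hFt : ∀ a I, (Ft a).coeff I = cut d m (fun a I => f (a, I)) a I)
    {H : A → MvPolynomial (Fin (n + 1)) Ω} (hH : ∀ a, (H a).IsHomogeneous (d a)) :
    ∃ D : Derivation k Ω Ω, ∀ a I, D ((subst (gm P Q)⁻¹ (Ft a)).coeff I) = (H a).coeff I := by
  classical
  have hcO : CharZero Ω := charZero_of_injective_algebraMap (algebraMap k Ω).injective
  have hf : AlgebraicIndependent k f := by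
    have h1 := hind.comp (fun I => Sum.inr (Sum.inr I))
      (Sum.inr_injective.comp Sum.inr_injective)
    exact h1
  obtain ⟨g, hg⟩ : ∃ g, g = gm P Q := ⟨_, rfl⟩
  have hgd : IsUnit g.det := by
    rw [hg]
    exact isUnit_iff_ne_zero.2 (gm_det hn hdet)
  obtain ⟨Ht, hHt⟩ : ∃ Ht : A → MvPolynomial (Fin (n + 1)) Ω, ∀ a, Ht a = subst g (H a) :=
    ⟨_, fun _ => rfl⟩
  have hHth : ∀ a, (Ht a).IsHomogeneous (d a) := fun a => by
    rw [hHt]
    exact subst_hom g (hH a)
  obtain ⟨u, v, huv⟩ := solve (k := k) hn hκ hf hFt (fun a ε i => - (Ht a).coeff (MM (d a) ε i))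
  obtain ⟨S, hS⟩ : ∃ S : A → MvPolynomial (Fin (n + 1)) Ω, ∀ a,
    S a = ∑ l, pderiv l (Ft a) * (C (u l) * X 0 + C (v l) * X 1) := ⟨_, fun _ => rfl⟩
  have hSh : ∀ a, ∀ I : Fin (n + 1) →₀ ℕ, I.degree ≠ d a → (S a).coeff I = 0 := by
    intro a I hI
    rw [hS, coeff_sum]
    refine Finset.sum_eq_zero fun l _ => ?_
    by_contra hcon
    have hFh := tilde_hom hFt a
    by_cases hd0 : d a = 0
    · have h1 : Ft a = C ((Ft a).coeff 0) := by
        rw [hd0] at hFh
        exact (totalDegree_eq_zero_iff_eq_C).1 (Nat.le_zero.1 hFh.totalDegree_le)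
      apply hcon
      rw [h1, pderiv_C, zero_mul, coeff_zero]
    · have h2 : (C (u l) * X 0 + C (v l) * X 1 : MvPolynomial (Fin (n + 1)) Ω).IsHomogeneous 1 := by
        have h3 := (isHomogeneous_C (Fin (n + 1)) (u l)).mul (isHomogeneous_X Ω (0 : Fin (n + 1)))
        have h4 := (isHomogeneous_C (Fin (n + 1)) (v l)).mul (isHomogeneous_X Ω (1 : Fin (n + 1)))
        rw [zero_add] at h3 h4
        exact h3.add h4
      have h5 := (hFh.pderiv (i := l)).mul h2
      have h6 := h5 hcon
      apply hI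
      rw [Finsupp.degree_eq_weight_one]
      refine Eq.trans h6 ?_
      omega
  obtain ⟨D, hD⟩ := exists_der_indep hind (Sum.elim (g.mulVec u) (Sum.elim (g.mulVec v)
    (fun p => (Ht p.1).coeff p.2 + (S p.1).coeff p.2)))
  have hDP : ∀ i, D (P i) = g.mulVec u i := fun i => hD (Sum.inl i)
  have hDQ : ∀ i, D (Q i) = g.mulVec v i := fun i => hD (Sum.inr (Sum.inl i))
  have hDf : ∀ a I, D (f (a, I)) = (Ht a).coeff I + (S a).coeff I := fun a I =>
    hD (Sum.inr (Sum.inr (a, I)))
  obtain ⟨δ, hδ⟩ : ∃ δ : Derivation ℤ Ω Ω, ∀ x, δ x = D x := ⟨D.restrictScalars ℤ, fun _ => rfl⟩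
  -- the derivative of the coefficients
  have hc : ∀ a, cDf δ (Ft a) = Ht a + S a := by
    intro a
    ext I
    rw [coeff_cDf, coeff_add, hδ, hFt]
    unfold cut
    by_cases hI : I.degree = d a
    · by_cases hb : BadS (d a) (fun ε => m ε a) I
      · rw [if_neg (fun h => h.2 hb), map_zero]
        obtain ⟨ε, i, hi, rfl⟩ := hb
        have h1 := huv a ε i hi
        rw [← hS] at h1
        rw [h1]
        ring
      · rw [if_pos ⟨hI, hb⟩, hDf]
    · rw [if_neg (fun h => hI h.1), map_zero, hSh a I hI]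
      by_contra hcon
      have h1 : (Ht a).coeff I ≠ 0 := by
        intro h2
        apply hcon
        rw [h2, add_zero]
      have h2 := hHth a h1
      apply hI
      rw [Finsupp.degree_eq_weight_one]
      exact h2
  -- the values
  have hF : ∀ a, cDf δ (subst g⁻¹ (Ft a)) = H a := by
    intro a
    refine funext_set (s := fun _ => Set.range ((↑) : ℕ → Ω))
      (fun _ => Set.infinite_range_of_injective Nat.cast_injective) ?_
    intro y hy
    have hy0 : ∀ i, δ (y i) = 0 := by
      intro i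
      obtain ⟨a, ha⟩ := hy i (Set.mem_univ _)
      rw [← ha]
      exact δ.map_natCast a
    obtain ⟨w, hw⟩ : ∃ w, w = g⁻¹.mulVec y := ⟨_, rfl⟩
    have hgw : g.mulVec w = y := by
      rw [hw, Matrix.mulVec_mulVec, Matrix.mul_nonsing_inv _ hgd, Matrix.one_mulVec]
    have h1 := Pool.Agent.TH145.GH.chainM δ y (subst g⁻¹ (Ft a))
    rw [← eval_cDf] at h1
    have h2 : ∑ l, eval y (pderiv l (subst g⁻¹ (Ft a))) * δ (y l) = 0 :=
      Finset.sum_eq_zero fun l _ => by rw [hy0, mul_zero]
    rw [h2, add_zero, eval_subst, ← hw] at h1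
    have h3 := Pool.Agent.TH145.GH.chainM δ w (Ft a)
    rw [← eval_cDf, hc] at h3
    -- the derivative of `w`
    have h4 : ∀ i, g.mulVec (fun j => δ (w j) + (u j * w 0 + v j * w 1)) i = 0 := by
      intro i
      have h5 := der_mulVec δ g w i
      rw [hgw, hy0] at h5
      have h6 : ∑ j, δ (g i j) * w j = g.mulVec u i * w 0 + g.mulVec v i * w 1 := by
        have h7 : ∀ j, δ (g i j) * w j = (if j = 0 then g.mulVec u i * w 0 else 0) +
            (if j = 1 then g.mulVec v i * w 1 else 0) := by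
          intro j
          have h8 : g i j = if j = 0 then P i else if j = 1 then Q i else if i = j then 1 else 0 := by
            rw [hg]
            rfl
          rw [h8]
          by_cases hj0 : j = 0
          · rw [if_pos hj0, if_pos hj0, hj0, if_neg (one_ne_zero' hn).symm, hδ, hDP, add_zero]
          · by_cases hj1 : j = 1
            · rw [if_neg hj0, if_neg hj0, if_pos hj1, if_pos hj1, hj1, hδ, hDQ, zero_add]
            · rw [if_neg hj0, if_neg hj0, if_neg hj1, if_neg hj1]
              by_cases hij : i = j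
              · rw [if_pos hij, δ.map_one_eq_zero]
                ring
              · rw [if_neg hij, map_zero]
                ring
        rw [Finset.sum_congr rfl fun j _ => h7 j, Finset.sum_add_distrib, Finset.sum_ite_eq',
          if_pos (Finset.mem_univ _), Finset.sum_ite_eq', if_pos (Finset.mem_univ _)]
      rw [h6] at h5
      have h9 : g.mulVec (fun j => δ (w j) + (u j * w 0 + v j * w 1)) i =
          g.mulVec (fun j => δ (w j)) i + (g.mulVec u i * w 0 + g.mulVec v i * w 1) := by
        change ∑ j, g i j * (δ (w j) + (u j * w 0 + v j * w 1)) = ∑ j, g i j * δ (w j) +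
          ((∑ j, g i j * u j) * w 0 + (∑ j, g i j * v j) * w 1)
        rw [Finset.sum_mul, Finset.sum_mul, ← Finset.sum_add_distrib, ← Finset.sum_add_distrib]
        exact Finset.sum_congr rfl fun j _ => by ring
      rw [h9]
      exact h5.symm
    have h5 : (fun j => δ (w j) + (u j * w 0 + v j * w 1)) = 0 := by
      have h6 : g.mulVec (fun j => δ (w j) + (u j * w 0 + v j * w 1)) = 0 := funext h4
      have h7 := congrArg (g⁻¹.mulVec) h6
      rwa [Matrix.mulVec_mulVec, Matrix.nonsing_inv_mul _ hgd, Matrix.one_mulVec,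
        Matrix.mulVec_zero] at h7
    have h6 : ∀ j, δ (w j) = -(u j * w 0 + v j * w 1) := fun j => by
      have := congrFun h5 j
      simp only [Pi.zero_apply] at this
      linear_combination this
    have h7 : eval w (S a) = ∑ l, eval w (pderiv l (Ft a)) * (u l * w 0 + v l * w 1) := by
      rw [hS, map_sum]
      refine Finset.sum_congr rfl fun l _ => ?_
      rw [map_mul, map_add, map_mul, map_mul, eval_C, eval_C, eval_X, eval_X]
    have h8 : ∑ l, eval w (pderiv l (Ft a)) * δ (w l) = - eval w (S a) := by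
      rw [h7, ← Finset.sum_neg_distrib]
      exact Finset.sum_congr rfl fun l _ => by rw [h6]; ring
    rw [h8, map_add] at h3
    rw [← h1, h3, hHt, eval_subst, hgw]
    ring
  refine ⟨D, fun a I => ?_⟩
  rw [← hδ, ← coeff_cDf, ← hg, hF]

/-- The coefficients are independent. -/
theorem indep_coeff [Fintype A] [CharZero k] (hn : 1 ≤ n) (hκ : Asg d m κ)
    {P Q : Fin (n + 1) → Ω} {f : A × (Fin (n + 1) →₀ ℕ) → Ω}
    (hind : AlgebraicIndependent k (Sum.elim P (Sum.elim Q f)))
    (hdet : P 0 * Q 1 - P 1 * Q 0 ≠ 0)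
    {Ft : A → MvPolynomial (Fin (n + 1)) Ω}
    (hFt : ∀ a I, (Ft a).coeff I = cut d m (fun a I => f (a, I)) a I) :
    AlgebraicIndependent k (fun p : (a : A) × {I : Fin (n + 1) →₀ ℕ // I.degree = d a} =>
      (subst (gm P Q)⁻¹ (Ft p.1)).coeff p.2.1) := by
  classical
  have h1 : ∀ p : (a : A) × {I : Fin (n + 1) →₀ ℕ // I.degree = d a}, ∃ D : Derivation k Ω Ω,
      ∀ b J, D ((subst (gm P Q)⁻¹ (Ft b)).coeff J) =
        (if b = p.1 then monomial p.2.1 (1 : Ω) else 0 : MvPolynomial (Fin (n + 1)) Ω).coeff J := by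
    intro p
    refine duals hn hκ hind hdet hFt (H := fun b => if b = p.1 then monomial p.2.1 (1 : Ω) else 0)
      fun b => ?_
    split_ifs with hb
    · rw [hb]
      exact isHomogeneous_monomial _ p.2.2
    · exact isHomogeneous_zero _ _ _
  choose D hD using h1
  refine indep_of_der _ D fun p q => ?_
  rw [hD]
  obtain ⟨a, I, hI⟩ := p
  obtain ⟨b, J, hJ⟩ := q
  dsimp only
  by_cases h : b = a
  · subst h
    rw [if_pos rfl, coeff_monomial]
    by_cases h2 : I = J
    · subst h2
      rw [if_pos rfl, if_pos rfl]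
    · rw [if_neg h2, if_neg]
      intro h3
      apply h2
      have h4 := eq_of_heq (Sigma.mk.inj_iff.1 h3).2
      exact (congrArg Subtype.val h4).symm
  · rw [if_neg h, coeff_zero, if_neg]
    intro h3
    exact h (congrArg Sigma.fst h3)

end main

end Pool.Agent.Y735.LE
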