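import Mathlib

/-!
Transfer of solutions of equations with independent coefficients.
-/

set_option autoImplicit false

open MvPolynomial

namespace Pool.Agent.Y735.LE

/-- Transfer of the solutions of equations with independent coefficients to an algebraically
closed field. -/
theorem transfer {k K Ω : Type} [Field k] [Field K] [Field Ω] [Algebra k K] [Algebra k Ω]
    [IsAlgClosed K] {ι : Type} {r : ι → K} {r' : ι → Ω} (hr : AlgebraicIndependent k r)
    (hr' : AlgebraicIndependent k r') (s : Finset Ω) :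
    ∃ (B : Subring Ω) (ψ : B →+* K), (∀ x ∈ s, x ∈ B) ∧ ∀ i, ∃ h : r' i ∈ B,
      ψ ⟨r' i, h⟩ = r i := by
  classical
  obtain ⟨φ, hφ⟩ : ∃ φ : IntermediateField.adjoin k (Set.range r') →+* K, ∀ i,
      φ ⟨r' i, IntermediateField.subset_adjoin k _ ⟨i, rfl⟩⟩ = r i := by
    refine ⟨((IntermediateField.adjoin k (Set.range r)).val.comp
      ((hr.aevalEquivField.toAlgHom).comp hr'.reprField)).toRingHom, fun i => ?_⟩
    have h1 : hr'.aevalEquivField (algebraMap (MvPolynomial ι k) _ (X i)) =
        ⟨r' i, IntermediateField.subset_adjoin k _ ⟨i, rfl⟩⟩ := by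
      apply Subtype.ext
      rw [AlgebraicIndependent.aevalEquivField_algebraMap_apply_coe, aeval_X]
    have h2 : hr'.reprField ⟨r' i, IntermediateField.subset_adjoin k _ ⟨i, rfl⟩⟩ =
        algebraMap (MvPolynomial ι k) _ (X i) := by
      rw [← h1]
      exact AlgEquiv.symm_apply_apply hr'.aevalEquivField _
    change ((hr.aevalEquivField (hr'.reprField
      ⟨r' i, IntermediateField.subset_adjoin k _ ⟨i, rfl⟩⟩) : _) : K) = r i
    rw [h2, AlgebraicIndependent.aevalEquivField_algebraMap_apply_coe, aeval_X]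
  let _ : Algebra (IntermediateField.adjoin k (Set.range r')) K := φ.toAlgebra
  obtain ⟨B, hB⟩ : ∃ B : Subalgebra (IntermediateField.adjoin k (Set.range r')) Ω,
    B = Algebra.adjoin _ (s : Set Ω) := ⟨_, rfl⟩
  have hfg : B.FG := by
    rw [hB]
    exact Subalgebra.fg_adjoin_finset s
  have hft : Algebra.FiniteType (IntermediateField.adjoin k (Set.range r')) B :=
    (Subalgebra.fg_iff_finiteType B).1 hfg
  obtain ⟨M, hM⟩ := Ideal.exists_maximal B
  let _ : Field (B ⧸ M) := Ideal.Quotient.field M
  have hft2 : Algebra.FiniteType (IntermediateField.adjoin k (Set.range r')) (B ⧸ M) :=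
    Algebra.FiniteType.of_surjective (Ideal.Quotient.mkₐ
      (IntermediateField.adjoin k (Set.range r')) M) (Ideal.Quotient.mkₐ_surjective _ _)
  have hfin : Module.Finite (IntermediateField.adjoin k (Set.range r')) (B ⧸ M) :=
    finite_of_finite_type_of_isJacobsonRing _ _
  have halg : Algebra.IsAlgebraic (IntermediateField.adjoin k (Set.range r')) (B ⧸ M) :=
    Algebra.IsAlgebraic.of_finite _ _
  let ψ : B →ₐ[IntermediateField.adjoin k (Set.range r')] K :=
    (IsAlgClosed.lift : (B ⧸ M) →ₐ[IntermediateField.adjoin k (Set.range r')] K).comp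
      (Ideal.Quotient.mkₐ _ M)
  refine ⟨B.toSubring, ψ.toRingHom, fun x hx => ?_, fun i => ?_⟩
  · change x ∈ B
    rw [hB]
    exact Algebra.subset_adjoin hx
  · have h1 : r' i ∈ B :=
      B.algebraMap_mem ⟨r' i, IntermediateField.subset_adjoin k _ ⟨i, rfl⟩⟩
    refine ⟨h1, ?_⟩
    have h2 := ψ.commutes ⟨r' i, IntermediateField.subset_adjoin k _ ⟨i, rfl⟩⟩
    rw [← hφ i]
    exact h2

end Pool.Agent.Y735.LE
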