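import Pool.Agent.Y735.LE.DerF
import Pool.Agent.Y735.LE.Transfer
import Pool.Agent.TH145.GC.Scale

/-!
Lines that are highly tangent to generic hypersurfaces at two points.
-/

set_option autoImplicit false

open MvPolynomial Pool.Agent.W603.LV Pool.Agent.W603.PV Pool.Agent.TH145.GH

namespace Pool.Agent.Y735.LE

section lin

variable {n : ℕ}

/-- The restriction to a line. -/
noncomputable def lin {S : Type} [CommSemiring S] (P Q : Fin (n + 1) → S)
    (p : MvPolynomial (Fin (n + 1)) S) : MvPolynomial (Fin (1 + 1)) S :=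
  aeval (fun i => C (P i) * X 0 + C (Q i) * X 1) p

theorem lin_map {S S' : Type} [CommSemiring S] [CommSemiring S'] (φ : S →+* S')
    (P Q : Fin (n + 1) → S) (p : MvPolynomial (Fin (n + 1)) S) :
    map φ (lin P Q p) = lin (fun i => φ (P i)) (fun i => φ (Q i)) (map φ p) := by
  induction p using MvPolynomial.induction_on with
  | C c =>
    unfold lin
    rw [aeval_C, map_C, aeval_C]
    exact map_C φ c
  | add p q hp hq =>
    unfold lin at *
    rw [map_add, map_add, map_add, map_add, hp, hq]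
  | mul_X p i hp =>
    unfold lin at *
    rw [map_mul, map_mul, map_mul, map_mul, hp, aeval_X, map_X, aeval_X, map_add, map_mul,
      map_mul, map_C, map_C, map_X, map_X]

theorem eval_lin {S : Type} [CommSemiring S] (P Q : Fin (n + 1) → S)
    (p : MvPolynomial (Fin (n + 1)) S) (y : Fin (1 + 1) → S) :
    eval y (lin P Q p) = eval (fun i => P i * y 0 + Q i * y 1) p := by
  induction p using MvPolynomial.induction_on with
  | C c =>
    unfold lin
    rw [aeval_C, eval_C]
    exact eval_C c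
  | add p q hp hq =>
    unfold lin at *
    rw [map_add, map_add, map_add, hp, hq]
  | mul_X p i hp =>
    unfold lin at *
    rw [map_mul, map_mul, map_mul, hp, aeval_X, eval_X, map_add, map_mul, map_mul, eval_C,
      eval_C, eval_X, eval_X]

theorem lin_C_mul {S : Type} [CommSemiring S] (P Q : Fin (n + 1) → S) (c : S)
    (p : MvPolynomial (Fin (n + 1)) S) : lin P Q (C c * p) = C c * lin P Q p := by
  unfold lin
  rw [map_mul, aeval_C]
  rfl

theorem lin_hom {S : Type} [CommSemiring S] (P Q : Fin (n + 1) → S) {d : ℕ}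
    {p : MvPolynomial (Fin (n + 1)) S} (hp : p.IsHomogeneous d) :
    (lin P Q p).IsHomogeneous d := by
  have h1 : ∀ i, (C (P i) * X 0 + C (Q i) * X 1 : MvPolynomial (Fin (1 + 1)) S).IsHomogeneous 1 := by
    intro i
    have h3 := (isHomogeneous_C (Fin (1 + 1)) (P i)).mul (isHomogeneous_X S (0 : Fin (1 + 1)))
    have h4 := (isHomogeneous_C (Fin (1 + 1)) (Q i)).mul (isHomogeneous_X S (1 : Fin (1 + 1)))
    rw [zero_add] at h3 h4
    exact h3.add h4
  have h2 := hp.aeval (fun i => C (P i) * X 0 + C (Q i) * X 1) h1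
  rwa [one_mul] at h2

/-- The values at points of the first two coordinates. -/
theorem eval_two {K : Type} [Field K] (hn : 1 ≤ n) {d : ℕ} {p : MvPolynomial (Fin (n + 1)) K}
    (hp : p.IsHomogeneous d) {x : Fin (n + 1) → K} (hx : ∀ i, i ≠ 0 → i ≠ 1 → x i = 0) :
    eval x p = ∑ i ∈ Finset.range (d + 1), coeff (MM d false i) p * (x 0 ^ (d - i) * x 1 ^ i) := by
  classical
  rw [eval_mon]
  have h1 : ∀ i, mon x (MM d false i) = x 0 ^ (d - i) * x 1 ^ i := by
    intro i
    unfold mon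
    rw [← Finset.mul_prod_erase Finset.univ _ (Finset.mem_univ (0 : Fin (n + 1))),
      ← Finset.mul_prod_erase (Finset.univ.erase 0) _ (Finset.mem_erase.2
        ⟨one_ne_zero' hn, Finset.mem_univ (1 : Fin (n + 1))⟩), Finset.prod_eq_one, mul_one]
    · have h2 := MM_self hn d false i
      have h3 := MM_not hn d false i
      rw [e2_false] at h2
      have h4 : (e2 (!false) : Fin (n + 1)) = 1 := rfl
      rw [h4] at h3
      rw [h2, h3]
    · intro j hj
      rw [Finset.mem_erase, Finset.mem_erase] at hj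
      rw [MM_other (ε := false) hj.2.1 hj.1, pow_zero]
  have h2 : ∑ i ∈ Finset.range (d + 1), coeff (MM d false i) p * (x 0 ^ (d - i) * x 1 ^ i) =
      ∑ u ∈ (Finset.range (d + 1)).image (MM d false), p.coeff u * mon x u := by
    rw [Finset.sum_image]
    · exact Finset.sum_congr rfl fun i _ => by rw [h1]
    · intro i _ j _ hij
      have h3 := congrArg (fun I : Fin (n + 1) →₀ ℕ => I (e2 (!false))) hij
      rwa [MM_not hn, MM_not hn] at h3
  rw [h2]
  have h3 : ∀ u ∈ p.support, u ∉ (Finset.range (d + 1)).image (MM d false) →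
      p.coeff u * mon x u = 0 := by
    intro u hu hu2
    have h4 : ∃ j, j ≠ 0 ∧ j ≠ 1 ∧ u j ≠ 0 := by
      by_contra hcon
      push Not at hcon
      apply hu2
      rw [Finset.mem_image]
      have h5 : u.degree = d := deg_of_mem hp hu
      have h6 : u = Finsupp.single 0 (u 0) + Finsupp.single 1 (u 1) := by
        ext j
        rw [Finsupp.add_apply]
        by_cases hj0 : j = 0
        · rw [hj0, Finsupp.single_eq_same,
            Finsupp.single_eq_of_ne (one_ne_zero' hn).symm, add_zero]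
        · by_cases hj1 : j = 1
          · rw [hj1, Finsupp.single_eq_same, Finsupp.single_eq_of_ne (one_ne_zero' hn), zero_add]
          · rw [Finsupp.single_eq_of_ne hj0, Finsupp.single_eq_of_ne hj1, hcon j hj0 hj1, add_zero]
      have h7 : u 0 + u 1 = d := by
        rw [← h5]
        conv_rhs => rw [h6]
        rw [map_add, Finsupp.degree_single, Finsupp.degree_single]
      refine ⟨u 1, Finset.mem_range.2 (by omega), ?_⟩
      conv_rhs => rw [h6]
      unfold MM
      have h8 : d - u 1 = u 0 := by omega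
      rw [h8]
      rfl
    obtain ⟨j, hj0, hj1, hj2⟩ := h4
    have h5 : mon x u = 0 := by
      unfold mon
      refine Finset.prod_eq_zero (Finset.mem_univ j) ?_
      rw [hx j hj0 hj1, zero_pow hj2]
    rw [h5, mul_zero]
  have h4 : ∑ u ∈ p.support, p.coeff u * mon x u =
      ∑ u ∈ p.support ∪ (Finset.range (d + 1)).image (MM d false), p.coeff u * mon x u :=
    Finset.sum_subset Finset.subset_union_left fun u _ hu2 => by
      rw [notMem_support_iff.1 hu2, zero_mul]
  have h5 : ∑ u ∈ (Finset.range (d + 1)).image (MM d false), p.coeff u * mon x u =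
      ∑ u ∈ p.support ∪ (Finset.range (d + 1)).image (MM d false), p.coeff u * mon x u :=
    Finset.sum_subset Finset.subset_union_right fun u hu hu2 => by
      rcases Finset.mem_union.1 hu with h4 | h4
      · exact h3 u h4 hu2
      · exact absurd h4 hu2
  rw [h4, h5]

end lin

section exist

variable {n : ℕ}

/-- Polynomials with given coefficients. -/
theorem exists_poly {S : Type} [CommSemiring S] {d : ℕ} (c : (Fin (n + 1) →₀ ℕ) → S)
    (hc : ∀ I, I.degree ≠ d → c I = 0) :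
    ∃ p : MvPolynomial (Fin (n + 1)) S, ∀ I, coeff I p = c I := by
  classical
  have h1 : {I : Fin (n + 1) →₀ ℕ | I.degree = d}.Finite :=
    Set.finite_coe_iff.1 (Pool.Agent.TH145.GH.finite_deg n d)
  refine ⟨∑ I ∈ h1.toFinset, monomial I (c I), fun I => ?_⟩
  rw [coeff_sum]
  simp only [coeff_monomial]
  rw [Finset.sum_ite_eq']
  split_ifs with h
  · rfl
  · rw [Set.Finite.mem_toFinset] at h
    exact (hc I h).symm

variable {k K : Type} [Field k] [CharZero k] [Field K] [Algebra k K] [IsAlgClosed K]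
  {A : Type} [Fintype A] {d : A → ℕ} {m : Bool → A → ℕ} {κ : Rw m → Fin (n + 1)}

omit [CharZero k] [IsAlgClosed K] in
/-- The ratios of independent coefficients are independent. -/
theorem indep_ratio {G : A → MvPolynomial (Fin (n + 1)) K} (I0 : A → Fin (n + 1) →₀ ℕ)
    (hI0 : ∀ a, (I0 a).degree = d a)
    (hind : AlgebraicIndependent k fun p : (a : A) × {I : Fin (n + 1) →₀ ℕ // I.degree = d a} =>
      (G p.1).coeff p.2.1) :
    AlgebraicIndependent k
      fun p : (a : A) × {I : Fin (n + 1) →₀ ℕ // I.degree = d a ∧ I ≠ I0 a} =>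
        (G p.1).coeff p.2.1 / (G p.1).coeff (I0 p.1) := by
  classical
  have hfin := Pool.Agent.TH145.GC.finite_cf n d
  obtain ⟨y, hy⟩ : ∃ y : ((a : A) × {I : Fin (n + 1) →₀ ℕ // I.degree = d a}) → K, ∀ p,
    y p = if p.2.1 = I0 p.1 then (G p.1).coeff (I0 p.1) else
      (G p.1).coeff p.2.1 / (G p.1).coeff (I0 p.1) := ⟨_, fun _ => rfl⟩
  have hne : ∀ a, (G a).coeff (I0 a) ≠ 0 := fun a =>
    hind.ne_zero ⟨a, I0 a, hI0 a⟩
  have hyi : AlgebraicIndependent k y := by
    refine Pool.Agent.TH145.MG.indep_of_mem _ _ hind fun p => ?_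
    have h1 : (G p.1).coeff (I0 p.1) ∈ Pool.Agent.TH145.MG.cl k (Set.range y) :=
      Pool.Agent.TH145.MG.subset_cl ⟨⟨p.1, I0 p.1, hI0 p.1⟩, by rw [hy, if_pos rfl]⟩
    by_cases hp : p.2.1 = I0 p.1
    · rw [hp]
      exact h1
    · have h2 : (G p.1).coeff p.2.1 = y p * (G p.1).coeff (I0 p.1) := by
        rw [hy, if_neg hp, div_mul_cancel₀ _ (hne p.1)]
      rw [h2]
      exact mul_mem (Pool.Agent.TH145.MG.subset_cl ⟨p, rfl⟩) h1
  have h1 := hyi.comp (fun p : (a : A) × {I : Fin (n + 1) →₀ ℕ // I.degree = d a ∧ I ≠ I0 a} =>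
    (⟨p.1, p.2.1, p.2.2.1⟩ : (a : A) × {I : Fin (n + 1) →₀ ℕ // I.degree = d a})) (by
      rintro ⟨a, I, hI⟩ ⟨b, J, hJ⟩ h
      have h3 : a = b := congrArg Sigma.fst h
      subst h3
      have h5 := congrArg Subtype.val (eq_of_heq (Sigma.mk.inj_iff.1 h).2)
      have h6 : I = J := h5
      subst h6
      rfl)
  have h2 : (y ∘ fun p : (a : A) × {I : Fin (n + 1) →₀ ℕ // I.degree = d a ∧ I ≠ I0 a} =>
      (⟨p.1, p.2.1, p.2.2.1⟩ : (a : A) × {I : Fin (n + 1) →₀ ℕ // I.degree = d a})) =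
      fun p => (G p.1).coeff p.2.1 / (G p.1).coeff (I0 p.1) := by
    funext p
    rw [Function.comp_apply, hy, if_neg p.2.2.2]
  rw [h2] at h1
  exact h1

/-- The restriction of the special forms to the line. -/
theorem lin_subst (hn : 1 ≤ n) {Ω : Type} [Field Ω] [Infinite Ω] {P Q : Fin (n + 1) → Ω}
    (hdet : P 0 * Q 1 - P 1 * Q 0 ≠ 0) {e : ℕ} {p : MvPolynomial (Fin (n + 1)) Ω}
    (hp : p.IsHomogeneous e) {i : ℕ} (hi : i ≤ e) (ε : Bool) :
    coeff (MM e ε i) (lin P Q (subst (gm P Q)⁻¹ p)) = coeff (MM e ε i) p := by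
  classical
  have hgd : IsUnit (gm P Q).det := isUnit_iff_ne_zero.2 (gm_det hn hdet)
  have h1 : lin P Q (subst (gm P Q)⁻¹ p) = ∑ j ∈ Finset.range (e + 1),
      monomial (MM e false j) (coeff (MM e false j) p) := by
    refine MvPolynomial.funext fun y => ?_
    rw [eval_lin, eval_subst, map_sum]
    obtain ⟨w, hw⟩ : ∃ w : Fin (n + 1) → Ω, ∀ l, w l = if l = 0 then y 0 else if l = 1 then
      y 1 else 0 := ⟨_, fun _ => rfl⟩
    have hw0 : w 0 = y 0 := by rw [hw, if_pos rfl]
    have hw1 : w 1 = y 1 := by rw [hw, if_neg (one_ne_zero' hn), if_pos rfl]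
    have h2 : (gm P Q)⁻¹.mulVec (fun i => P i * y 0 + Q i * y 1) = w := by
      have h3 : (gm P Q).mulVec w = fun i => P i * y 0 + Q i * y 1 := by
        funext l
        rw [gm_mulVec hn, hw0, hw1]
        split_ifs with h4
        · rw [add_zero]
        · push Not at h4
          rw [hw, if_neg h4.1, if_neg h4.2, add_zero]
      rw [← h3, Matrix.mulVec_mulVec, Matrix.nonsing_inv_mul _ hgd, Matrix.one_mulVec]
    rw [h2, eval_two hn hp (x := w) (fun l h3 h4 => by rw [hw, if_neg h3, if_neg h4]), hw0, hw1]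
    refine Finset.sum_congr rfl fun j _ => ?_
    rw [eval_monomial]
    congr 1
    rw [Finsupp.prod_fintype _ _ (fun i => pow_zero _), Fin.prod_univ_two]
    have h5 := MM_self (n := 1) le_rfl e false j
    have h6 := MM_not (n := 1) le_rfl e false j
    rw [e2_false] at h5
    have h7 : (e2 (!false) : Fin (1 + 1)) = 1 := rfl
    rw [h7] at h6
    rw [h5, h6]
  have h2 : ∀ j, j ≤ e → coeff (MM e false j) (lin P Q (subst (gm P Q)⁻¹ p)) =
      coeff (MM e false j) p := by
    intro j hj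
    rw [h1, coeff_sum, Finset.sum_eq_single j]
    · rw [coeff_monomial, if_pos rfl]
    · intro j' _ hj'
      rw [coeff_monomial, if_neg]
      intro h3
      have h4 := congrArg (fun I : Fin (1 + 1) →₀ ℕ => I (e2 (!false))) h3
      rw [MM_not le_rfl, MM_not le_rfl] at h4
      exact hj' h4
    · intro h3
      exact absurd (Finset.mem_range.2 (by omega)) h3
  cases ε
  · exact h2 i hi
  · have h3 : MM (n := 1) e true i = MM e false (e - i) := MM_symm false hi
    have h4 : MM (n := n) e true i = MM e false (e - i) := MM_symm false hi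
    rw [h3, h4]
    exact h2 _ (by omega)

/-- The lines. -/
theorem exists_lineF (hn : 1 ≤ n) (hκ : Asg d m κ) {F : A → MvPolynomial (Fin (n + 1)) K}
    (hF : ∀ a, (F a).IsHomogeneous (d a)) (I0 : A → Fin (n + 1) →₀ ℕ)
    (h0 : ∀ a, (F a).coeff (I0 a) ≠ 0)
    (hind : AlgebraicIndependent k
      fun p : (a : A) × {I : Fin (n + 1) →₀ ℕ // I.degree = d a ∧ I ≠ I0 a} =>
        (F p.1).coeff p.2.1 / (F p.1).coeff (I0 p.1)) :
    ∃ P Q : Fin (n + 1) → K, P 0 * Q 1 - P 1 * Q 0 ≠ 0 ∧ ∀ a,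
      (∀ ε i, i < m ε a → coeff (MM (d a) ε i) (lin P Q (F a)) = 0) ∧
      (m false a + m true a ≤ d a →
        coeff (MM (d a) false (m false a)) (lin P Q (F a)) ≠ 0) := by
  classical
  have hI0 : ∀ a, (I0 a).degree = d a := fun a =>
    deg_of_mem (hF a) (mem_support_iff.2 (h0 a))
  obtain ⟨Ω, _, _, hΩ, hcΩ, t, ht⟩ := Pool.Agent.TH145.GC.exists_big k
    (Fin (n + 1) ⊕ (Fin (n + 1) ⊕ (A × (Fin (n + 1) →₀ ℕ))))
  have hinf : Infinite Ω := inferInstance
  obtain ⟨P, hP⟩ : ∃ P : Fin (n + 1) → Ω, ∀ i, P i = t (Sum.inl i) := ⟨_, fun _ => rfl⟩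
  obtain ⟨Q, hQ⟩ : ∃ Q : Fin (n + 1) → Ω, ∀ i, Q i = t (Sum.inr (Sum.inl i)) :=
    ⟨_, fun _ => rfl⟩
  obtain ⟨f, hf⟩ : ∃ f : A × (Fin (n + 1) →₀ ℕ) → Ω, ∀ p, f p = t (Sum.inr (Sum.inr p)) :=
    ⟨_, fun _ => rfl⟩
  have hPQf : AlgebraicIndependent k (Sum.elim P (Sum.elim Q f)) := by
    have h1 : Sum.elim P (Sum.elim Q f) = t := by
      funext x
      rcases x with x | x | x
      · exact hP x
      · exact hQ x
      · exact hf x
    rw [h1]
    exact ht
  have hdet : P 0 * Q 1 - P 1 * Q 0 ≠ 0 := by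
    intro h1
    obtain ⟨q, hq⟩ : ∃ q : MvPolynomial (Fin (n + 1) ⊕ (Fin (n + 1) ⊕
      (A × (Fin (n + 1) →₀ ℕ)))) k, q = X (Sum.inl 0) * X (Sum.inr (Sum.inl 1)) -
        X (Sum.inl 1) * X (Sum.inr (Sum.inl 0)) := ⟨_, rfl⟩
    have h2 : q = 0 := by
      apply ht
      rw [map_zero, hq]
      change aeval t _ = 0
      rw [map_sub, map_mul, map_mul, aeval_X, aeval_X, aeval_X, aeval_X, ← hP, ← hP, ← hQ, ← hQ]
      exact h1
    have h3 := congrArg (eval (Sum.elim (fun i : Fin (n + 1) => if i = 0 then (1 : k) else 0)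
      (Sum.elim (fun i : Fin (n + 1) => if i = 1 then (1 : k) else 0) fun _ => 0))) h2
    rw [hq, map_sub, map_mul, map_mul, eval_X, eval_X, eval_X, eval_X, map_zero] at h3
    simp only [Sum.elim_inl, Sum.elim_inr, if_true, mul_one,
      if_neg (one_ne_zero' hn), zero_mul, sub_zero] at h3
    exact one_ne_zero h3
  have hpoly : ∀ a, ∃ p : MvPolynomial (Fin (n + 1)) Ω, ∀ I,
      coeff I p = cut d m (fun a I => f (a, I)) a I := fun a =>
    exists_poly (d := d a) _ fun I hI => if_neg fun h => hI h.1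
  choose Ft hFt using hpoly
  have hFth := tilde_hom hFt
  obtain ⟨G, hG⟩ : ∃ G : A → MvPolynomial (Fin (n + 1)) Ω, ∀ a,
    G a = subst (gm P Q)⁻¹ (Ft a) := ⟨_, fun _ => rfl⟩
  have hGh : ∀ a, (G a).IsHomogeneous (d a) := fun a => by
    rw [hG]
    exact subst_hom _ (hFth a)
  have hGi : AlgebraicIndependent k
      fun p : (a : A) × {I : Fin (n + 1) →₀ ℕ // I.degree = d a} => (G p.1).coeff p.2.1 := by
    have h1 := indep_coeff hn hκ hPQf hdet hFt
    have h2 : (fun p : (a : A) × {I : Fin (n + 1) →₀ ℕ // I.degree = d a} =>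
        (G p.1).coeff p.2.1) = fun p => (subst (gm P Q)⁻¹ (Ft p.1)).coeff p.2.1 := by
      funext p
      rw [hG]
    rw [h2]
    exact h1
  have hGr := indep_ratio I0 hI0 hGi
  have hG0 : ∀ a, (G a).coeff (I0 a) ≠ 0 := fun a => hGi.ne_zero ⟨a, I0 a, hI0 a⟩
  obtain ⟨c, hc⟩ : ∃ c : A → Ω, ∀ a, c a = ((G a).coeff (I0 a))⁻¹ *
    coeff (MM (d a) false (m false a)) (lin P Q (G a)) := ⟨_, fun _ => rfl⟩
  obtain ⟨B, ψ, hsB, hψ⟩ := transfer hind hGr (insert (P 0 * Q 1 - P 1 * Q 0)⁻¹
    (Finset.univ.image P ∪ Finset.univ.image Q ∪ Finset.univ.image fun a => (c a)⁻¹))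
  choose hrB hrψ using hψ
  have hPB : ∀ i, P i ∈ B := fun i => hsB _ (Finset.mem_insert_of_mem (Finset.mem_union_left _
    (Finset.mem_union_left _ (Finset.mem_image_of_mem _ (Finset.mem_univ _)))))
  have hQB : ∀ i, Q i ∈ B := fun i => hsB _ (Finset.mem_insert_of_mem (Finset.mem_union_left _
    (Finset.mem_union_right _ (Finset.mem_image_of_mem _ (Finset.mem_univ _)))))
  have hcB : ∀ a, (c a)⁻¹ ∈ B := fun a => hsB _ (Finset.mem_insert_of_mem
    (Finset.mem_union_right _ (Finset.mem_image_of_mem (fun a => (c a)⁻¹) (Finset.mem_univ a))))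
  have hdB : (P 0 * Q 1 - P 1 * Q 0)⁻¹ ∈ B := hsB _ (Finset.mem_insert_self _ _)
  -- the forms over `B`
  have hpolyB : ∀ a, ∃ p : MvPolynomial (Fin (n + 1)) B, ∀ I,
      coeff I p = if h : I.degree = d a ∧ I ≠ I0 a then ⟨_, hrB ⟨a, I, h⟩⟩ else
        if I = I0 a then 1 else 0 := fun a =>
    exists_poly (d := d a) _ fun I hI => by
      rw [dif_neg (fun h => hI h.1), if_neg (fun h => hI (by rw [h]; exact hI0 a))]
  choose GB hGB using hpolyB
  have hGBΩ : ∀ a, map B.subtype (GB a) = C ((G a).coeff (I0 a))⁻¹ * G a := by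
    intro a
    ext I
    rw [coeff_map, coeff_C_mul, hGB]
    by_cases hI : I.degree = d a ∧ I ≠ I0 a
    · rw [dif_pos hI]
      change (G a).coeff I / (G a).coeff (I0 a) = _
      rw [div_eq_mul_inv, mul_comm]
    · rw [dif_neg hI]
      by_cases hI2 : I = I0 a
      · rw [if_pos hI2, map_one, hI2, inv_mul_cancel₀ (hG0 a)]
      · rw [if_neg hI2, map_zero]
        have h1 : (G a).coeff I = 0 := by
          by_contra hcon
          exact hI ⟨deg_of_mem (hGh a) (mem_support_iff.2 hcon), hI2⟩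
        rw [h1, mul_zero]
  have hGBK : ∀ a, map ψ (GB a) = C ((F a).coeff (I0 a))⁻¹ * F a := by
    intro a
    ext I
    rw [coeff_map, coeff_C_mul, hGB]
    by_cases hI : I.degree = d a ∧ I ≠ I0 a
    · rw [dif_pos hI, hrψ]
      dsimp only
      rw [div_eq_mul_inv, mul_comm]
    · rw [dif_neg hI]
      by_cases hI2 : I = I0 a
      · rw [if_pos hI2, map_one, hI2, inv_mul_cancel₀ (h0 a)]
      · rw [if_neg hI2, map_zero]
        have h1 : (F a).coeff I = 0 := by
          by_contra hcon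
          exact hI ⟨deg_of_mem (hF a) (mem_support_iff.2 hcon), hI2⟩
        rw [h1, mul_zero]
  obtain ⟨L, hL⟩ : ∃ L : A → MvPolynomial (Fin (1 + 1)) B, ∀ a,
    L a = lin (fun i => (⟨P i, hPB i⟩ : B)) (fun i => (⟨Q i, hQB i⟩ : B)) (GB a) :=
    ⟨_, fun _ => rfl⟩
  have hLΩ : ∀ a, map B.subtype (L a) = C ((G a).coeff (I0 a))⁻¹ * lin P Q (G a) := by
    intro a
    rw [hL, lin_map, hGBΩ, lin_C_mul]
    rfl
  have hLK : ∀ a, map ψ (L a) = C ((F a).coeff (I0 a))⁻¹ *
      lin (fun i => ψ ⟨P i, hPB i⟩) (fun i => ψ ⟨Q i, hQB i⟩) (F a) := by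
    intro a
    rw [hL, lin_map, hGBK, lin_C_mul]
  refine ⟨fun i => ψ ⟨P i, hPB i⟩, fun i => ψ ⟨Q i, hQB i⟩, ?_, fun a => ⟨?_, ?_⟩⟩
  · intro h1
    have h2 : ((⟨P 0, hPB 0⟩ : B) * ⟨Q 1, hQB 1⟩ - ⟨P 1, hPB 1⟩ * ⟨Q 0, hQB 0⟩) *
        ⟨_, hdB⟩ = 1 := Subtype.ext (mul_inv_cancel₀ hdet)
    have h3 := congrArg ψ h2
    rw [map_mul, map_sub, map_mul, map_mul, h1, zero_mul, map_one] at h3
    exact zero_ne_one h3
  · intro ε i hi
    have hle := hκ.le ε a
    have h1 : coeff (MM (d a) ε i) (L a) = 0 := by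
      apply Subtype.ext
      have h2 := congrArg (coeff (MM (d a) ε i)) (hLΩ a)
      rw [coeff_map, coeff_C_mul, hG, lin_subst hn hdet (hFth a) (by omega), hFt] at h2
      have h3 : cut d m (fun a I => f (a, I)) a (MM (d a) ε i) = 0 :=
        if_neg fun h => h.2 ⟨ε, i, hi, rfl⟩
      rw [h3, mul_zero] at h2
      exact h2
    have h2 := congrArg (coeff (MM (d a) ε i)) (hLK a)
    rw [coeff_map, h1, map_zero, coeff_C_mul] at h2
    exact (mul_eq_zero.1 h2.symm).resolve_left (inv_ne_zero (h0 a))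
  · intro hm hz
    have hle := hκ.le false a
    have h1 : c a ≠ 0 := by
      rw [hc, hG, lin_subst hn hdet (hFth a) (by omega), hFt]
      refine mul_ne_zero (inv_ne_zero ?_) ?_
      · rw [← hG]
        exact hG0 a
      · unfold cut
        rw [if_pos ⟨MM_deg _ (by omega), not_bad_special hn (mm := fun ε => m ε a) hm⟩]
        change f (a, _) ≠ 0
        rw [hf]
        exact ht.ne_zero _
    have h2 : coeff (MM (d a) false (m false a)) (L a) * ⟨_, hcB a⟩ = 1 := by
      apply Subtype.ext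
      have h2 := congrArg (coeff (MM (d a) false (m false a))) (hLΩ a)
      rw [coeff_map, coeff_C_mul, ← hc] at h2
      change B.subtype (coeff (MM (d a) false (m false a)) (L a)) * (c a)⁻¹ = 1
      rw [h2, mul_inv_cancel₀ h1]
    have h3 := congrArg ψ h2
    have h4 := congrArg (coeff (MM (d a) false (m false a))) (hLK a)
    rw [coeff_map, coeff_C_mul, hz, mul_zero] at h4
    rw [map_mul, h4, zero_mul, map_one] at h3
    exact zero_ne_one h3

end exist

end Pool.Agent.Y735.LE
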