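import Mathlib

/-!
Monomials in the two coordinates of a line.
-/

set_option autoImplicit false

open MvPolynomial

namespace Pool.Agent.Y735.LE

variable {n : ℕ}

theorem one_val {n : ℕ} (hn : 1 ≤ n) : ((1 : Fin (n + 1)) : ℕ) = 1 := by
  obtain ⟨m, rfl⟩ : ∃ m, n = m + 1 := ⟨n - 1, by omega⟩
  rfl

theorem one_ne_zero' (hn : 1 ≤ n) : (1 : Fin (n + 1)) ≠ 0 := by
  intro h
  have := congrArg Fin.val h
  rw [one_val hn] at this
  simp at this

/-- The two coordinates. -/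
def e2 (ε : Bool) : Fin (n + 1) := if ε then 1 else 0

theorem e2_true : (e2 true : Fin (n + 1)) = 1 := rfl

theorem e2_false : (e2 false : Fin (n + 1)) = 0 := rfl

theorem e2_ne (hn : 1 ≤ n) (ε : Bool) : (e2 ε : Fin (n + 1)) ≠ e2 (!ε) := by
  cases ε
  · exact (one_ne_zero' hn).symm
  · exact one_ne_zero' hn

/-- The exponent of `x_ε ^ (d - i) x_{1-ε} ^ i`. -/
noncomputable def MM (d : ℕ) (ε : Bool) (i : ℕ) : Fin (n + 1) →₀ ℕ :=
  Finsupp.single (e2 ε) (d - i) + Finsupp.single (e2 (!ε)) i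

theorem MM_self (hn : 1 ≤ n) (d : ℕ) (ε : Bool) (i : ℕ) :
    MM (n := n) d ε i (e2 ε) = d - i := by
  unfold MM
  rw [Finsupp.add_apply, Finsupp.single_eq_same, Finsupp.single_eq_of_ne (e2_ne hn ε), add_zero]

theorem MM_not (hn : 1 ≤ n) (d : ℕ) (ε : Bool) (i : ℕ) :
    MM (n := n) d ε i (e2 (!ε)) = i := by
  unfold MM
  rw [Finsupp.add_apply, Finsupp.single_eq_same, Finsupp.single_eq_of_ne (e2_ne hn ε).symm,
    zero_add]

theorem MM_not_self (hn : 1 ≤ n) (d : ℕ) (ε : Bool) (i : ℕ) :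
    MM (n := n) d (!ε) i (e2 ε) = i := by
  have := MM_not hn d (!ε) i
  rwa [Bool.not_not] at this

theorem MM_not_not (hn : 1 ≤ n) (d : ℕ) (ε : Bool) (i : ℕ) :
    MM (n := n) d (!ε) i (e2 (!ε)) = d - i := MM_self hn d (!ε) i

theorem MM_other {ε : Bool} {l : Fin (n + 1)} (h : l ≠ e2 ε) (h' : l ≠ e2 (!ε)) (d i : ℕ) :
    MM d ε i l = 0 := by
  unfold MM
  rw [Finsupp.add_apply, Finsupp.single_eq_of_ne h, Finsupp.single_eq_of_ne h', add_zero]

theorem MM_deg {d i : ℕ} (ε : Bool) (hi : i ≤ d) : (MM (n := n) d ε i).degree = d := by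
  unfold MM
  rw [map_add, Finsupp.degree_single, Finsupp.degree_single]
  omega

theorem MM_symm {d i : ℕ} (ε : Bool) (hi : i ≤ d) :
    MM (n := n) d (!ε) i = MM d ε (d - i) := by
  unfold MM
  rw [Bool.not_not, add_comm (Finsupp.single _ _)]
  congr 2
  omega

/-- The exponent of `x_ε ^ (d - 1 - i) x_{1-ε} ^ i x_l`. -/
noncomputable def JJ (d : ℕ) (ε : Bool) (i : ℕ) (l : Fin (n + 1)) : Fin (n + 1) →₀ ℕ :=
  MM (d - 1) ε i + Finsupp.single l 1

theorem JJ_not (d : ℕ) (ε : Bool) (i : ℕ) : JJ (n := n) d ε i (e2 (!ε)) = MM d ε (i + 1) := by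
  unfold JJ MM
  rw [add_assoc, ← Finsupp.single_add]
  congr 2
  omega

theorem JJ_self {d : ℕ} (ε : Bool) {i : ℕ} (hi : i < d) :
    JJ (n := n) d ε i (e2 ε) = MM d ε i := by
  unfold JJ MM
  rw [add_right_comm, ← Finsupp.single_add]
  congr 2
  omega

theorem JJ_deg {d i : ℕ} (ε : Bool) (hi : i < d) (l : Fin (n + 1)) :
    (JJ d ε i l).degree = d := by
  unfold JJ
  rw [map_add, MM_deg ε (by omega), Finsupp.degree_single]
  omega

theorem other_bool {ε ε' : Bool} {l : Fin (n + 1)} (h : l ≠ e2 ε) (h' : l ≠ e2 (!ε)) :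
    l ≠ e2 ε' ∧ l ≠ e2 (!ε') := by
  cases ε <;> cases ε' <;> simp_all

theorem JJ_inj (hn : 1 ≤ n) {d : ℕ} {ε ε' : Bool} {i i' : ℕ} {l l' : Fin (n + 1)}
    (h0 : l ≠ e2 ε) (h1 : l ≠ e2 (!ε)) (hi' : i' < d) (h : JJ d ε i l = JJ d ε' i' l') :
    l' = l ∧ (ε' = ε ∧ i' = i ∨ ε' = !ε ∧ i + i' = d - 1) := by
  have h2 : l' = l := by
    by_contra hne
    have h3 := congrArg (fun I : Fin (n + 1) →₀ ℕ => I l) h
    simp only [JJ, Finsupp.add_apply, Finsupp.single_eq_same] at h3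
    rw [MM_other h0 h1, MM_other (other_bool (ε' := ε') h0 h1).1
      (other_bool (ε' := ε') h0 h1).2, Finsupp.single_eq_of_ne (Ne.symm hne)] at h3
    simp at h3
  refine ⟨h2, ?_⟩
  rw [h2] at h
  have h4 : MM (n := n) (d - 1) ε i = MM (d - 1) ε' i' := add_right_cancel h
  have h5 := congrArg (fun I : Fin (n + 1) →₀ ℕ => I (e2 (!ε))) h4
  rw [MM_not hn] at h5
  by_cases hε : ε' = ε
  · left
    rw [hε, MM_not hn] at h5
    exact ⟨hε, h5.symm⟩
  · right
    have h6 : ε' = !ε := by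
      cases ε <;> cases ε' <;> simp_all
    rw [h6, MM_not_not hn] at h5
    exact ⟨h6, by omega⟩

theorem MM_eq_JJ {d : ℕ} {ε ε' : Bool} {i i' : ℕ} {l' : Fin (n + 1)}
    (h : MM d ε i = JJ d ε' i' l') : l' = e2 ε' ∨ l' = e2 (!ε') := by
  by_contra hcon
  push Not at hcon
  have h3 := congrArg (fun I : Fin (n + 1) →₀ ℕ => I l') h
  simp only [JJ, Finsupp.add_apply, Finsupp.single_eq_same] at h3
  rw [MM_other hcon.1 hcon.2, MM_other (other_bool (ε' := ε) hcon.1 hcon.2).1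
      (other_bool (ε' := ε) hcon.1 hcon.2).2] at h3
  simp at h3

/-- The exponents that are not allowed. -/
def BadS (d : ℕ) (mm : Bool → ℕ) (I : Fin (n + 1) →₀ ℕ) : Prop :=
  ∃ ε, ∃ i, i < mm ε ∧ I = MM d ε i

theorem not_bad_other {d : ℕ} {mm : Bool → ℕ} {ε : Bool} {i : ℕ} {l : Fin (n + 1)}
    (h0 : l ≠ e2 ε) (h1 : l ≠ e2 (!ε)) : ¬ BadS d mm (JJ d ε i l) := by
  rintro ⟨ε', j, -, h⟩
  rcases MM_eq_JJ h.symm with h2 | h2
  · exact h0 h2
  · exact h1 h2

theorem not_bad_special (hn : 1 ≤ n) {d : ℕ} {mm : Bool → ℕ} {ε : Bool}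
    (h : mm ε + mm (!ε) ≤ d) : ¬ BadS (n := n) d mm (MM d ε (mm ε)) := by
  rintro ⟨ε', j, hj, hI⟩
  have h5 := congrArg (fun I : Fin (n + 1) →₀ ℕ => I (e2 (!ε))) hI
  rw [MM_not hn] at h5
  by_cases hε : ε' = ε
  · rw [hε, MM_not hn] at h5
    rw [hε] at hj
    omega
  · have h6 : ε' = !ε := by
      cases ε <;> cases ε' <;> simp_all
    rw [h6, MM_not_not hn] at h5
    rw [h6] at hj
    omega

/-- The coefficients of the derivatives times the first coordinate. -/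
theorem coeff_self (hn : 1 ≤ n) {S : Type} [CommSemiring S] (p : MvPolynomial (Fin (n + 1)) S)
    (l : Fin (n + 1)) {d i : ℕ} (ε : Bool) (hi : i ≤ d) :
    coeff (MM d ε i) (pderiv l p * X (e2 ε)) =
      if i < d then coeff (JJ d ε i l) p * ((MM (n := n) (d - 1) ε i l : ℕ) + 1) else 0 := by
  classical
  rw [coeff_mul_X']
  have h1 : (e2 ε : Fin (n + 1)) ∈ (MM d ε i).support ↔ i < d := by
    rw [Finsupp.mem_support_iff, MM_self hn]
    omega
  by_cases h : i < d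
  · rw [if_pos (h1.2 h), if_pos h, coeff_pderiv]
    have h2 : (MM d ε i - Finsupp.single (e2 ε) 1 : Fin (n + 1) →₀ ℕ) = MM (d - 1) ε i := by
      ext j
      rw [Finsupp.tsub_apply]
      by_cases hj : j = e2 ε
      · rw [hj, Finsupp.single_eq_same, MM_self hn, MM_self hn]
        omega
      · rw [Finsupp.single_eq_of_ne hj, Nat.sub_zero]
        by_cases hj' : j = e2 (!ε)
        · rw [hj', MM_not hn, MM_not hn]
        · rw [MM_other hj hj', MM_other hj hj']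
    rw [h2]
    rfl
  · rw [if_neg (fun h3 => h (h1.1 h3)), if_neg h]

/-- The coefficients of the derivatives times the second coordinate. -/
theorem coeff_not (hn : 1 ≤ n) {S : Type} [CommSemiring S] (p : MvPolynomial (Fin (n + 1)) S)
    (l : Fin (n + 1)) {d i : ℕ} (ε : Bool) (hi : i ≤ d) :
    coeff (MM d ε i) (pderiv l p * X (e2 (!ε))) =
      if 1 ≤ i then coeff (JJ d ε (i - 1) l) p *
        ((MM (n := n) (d - 1) ε (i - 1) l : ℕ) + 1) else 0 := by
  classical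
  rw [coeff_mul_X']
  have h1 : (e2 (!ε) : Fin (n + 1)) ∈ (MM d ε i).support ↔ 1 ≤ i := by
    rw [Finsupp.mem_support_iff, MM_not hn]
    omega
  by_cases h : 1 ≤ i
  · rw [if_pos (h1.2 h), if_pos h, coeff_pderiv]
    have h2 : (MM d ε i - Finsupp.single (e2 (!ε)) 1 : Fin (n + 1) →₀ ℕ) =
        MM (d - 1) ε (i - 1) := by
      ext j
      rw [Finsupp.tsub_apply]
      by_cases hj' : j = e2 (!ε)
      · rw [hj', Finsupp.single_eq_same, MM_not hn, MM_not hn]
      · rw [Finsupp.single_eq_of_ne hj', Nat.sub_zero]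
        by_cases hj : j = e2 ε
        · rw [hj, MM_self hn, MM_self hn]
          omega
        · rw [MM_other hj hj', MM_other hj hj']
    rw [h2]
    rfl
  · rw [if_neg (fun h3 => h (h1.1 h3)), if_neg h]

end Pool.Agent.Y735.LE
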