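import Pool.Agent.Y735.LE.Mon

/-!
The generic matrix for the lines that are highly tangent to hypersurfaces at two points.
-/

set_option autoImplicit false

open MvPolynomial

namespace Pool.Agent.Y735.LE

variable {n : ℕ} {A : Type}

/-- The indices of the conditions. -/
abbrev Rw (m : Bool → A → ℕ) := (ε : Bool) × (a : A) × Fin (m ε a)

open Classical in
/-- The coefficients with the exception of those that are not allowed. -/
noncomputable def cut {S : Type} [Zero S] (d : A → ℕ) (m : Bool → A → ℕ)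
    (z : A → (Fin (n + 1) →₀ ℕ) → S) (a : A) (I : Fin (n + 1) →₀ ℕ) : S :=
  if I.degree = d a ∧ ¬ BadS (d a) (fun ε => m ε a) I then z a I else 0

/-- The matrix. -/
noncomputable def Mx {S : Type} [Semiring S] (d : A → ℕ) {m : Bool → A → ℕ}
    (κ : Rw m → Fin (n + 1)) (c : A → (Fin (n + 1) →₀ ℕ) → S) : Matrix (Rw m) (Rw m) S :=
  fun ρ x => if x.1 = ρ.1 then c ρ.2.1 (JJ (d ρ.2.1) ρ.1 ρ.2.2 (κ x)) *
      ((MM (n := n) (d ρ.2.1 - 1) ρ.1 ρ.2.2 (κ x) : ℕ) + 1)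
    else if 1 ≤ (ρ.2.2 : ℕ) then c ρ.2.1 (JJ (d ρ.2.1) ρ.1 (ρ.2.2 - 1) (κ x)) *
      ((MM (n := n) (d ρ.2.1 - 1) ρ.1 (ρ.2.2 - 1) (κ x) : ℕ) + 1)
    else 0

theorem Mx_map {S S' : Type} [Semiring S] [Semiring S'] (φ : S →+* S') (d : A → ℕ)
    {m : Bool → A → ℕ} (κ : Rw m → Fin (n + 1)) (z : A → (Fin (n + 1) →₀ ℕ) → S) :
    (Mx d κ (cut d m z)).map φ = Mx d κ (cut d m fun a I => φ (z a I)) := by
  have h1 : ∀ a I, φ (cut d m z a I) = cut d m (fun a I => φ (z a I)) a I := by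
    intro a I
    unfold cut
    split_ifs
    · rfl
    · exact map_zero φ
  ext ρ x
  rw [Matrix.map_apply]
  unfold Mx
  by_cases h : x.1 = ρ.1
  · rw [if_pos h, if_pos h, map_mul, h1, map_add, map_natCast, map_one]
  · by_cases h2 : 1 ≤ (ρ.2.2 : ℕ)
    · rw [if_neg h, if_neg h, if_pos h2, if_pos h2, map_mul, h1, map_add, map_natCast, map_one]
    · rw [if_neg h, if_neg h, if_neg h2, if_neg h2, map_zero]

/-- The properties of the assignment of columns to the conditions. -/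
structure Asg (d : A → ℕ) (m : Bool → A → ℕ) (κ : Rw m → Fin (n + 1)) : Prop where
  le : ∀ ε a, m ε a ≤ d a
  le1 : ∀ ε a, m ε a + m (!ε) a ≤ d a + 1
  ne : ∀ x : Rw m, κ x ≠ e2 x.1
  inj : ∀ x y : Rw m, x.1 = y.1 → κ x = κ y → x = y
  sp : ∀ x : Rw m, κ x = e2 (!x.1) → (x.2.2 : ℕ) + 1 = m x.1 x.2.1 ∧
    m x.1 x.2.1 + m (!x.1) x.2.1 ≤ d x.2.1 ∧
      ∀ j : Fin (m (!x.1) x.2.1), (j : ℕ) + 1 = m (!x.1) x.2.1 →
        κ ⟨!x.1, x.2.1, j⟩ = e2 x.1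
  eqs : ∀ x : Rw m, m x.1 x.2.1 + m (!x.1) x.2.1 = d x.2.1 + 1 →
    (x.2.2 : ℕ) + 1 = m x.1 x.2.1 →
      ∀ j : Fin (m (!x.1) x.2.1), (j : ℕ) + 1 = m (!x.1) x.2.1 →
        κ ⟨!x.1, x.2.1, j⟩ = κ x

open Classical in
/-- The terms of the special values. -/
noncomputable def zt (d : A → ℕ) {m : Bool → A → ℕ} (κ : Rw m → Fin (n + 1)) (a : A)
    (I : Fin (n + 1) →₀ ℕ) (ε : Bool) (i : Fin (m ε a)) : ℕ :=
  if I = JJ (d a) ε i (κ ⟨ε, a, i⟩) then 2 ^ ((i : ℕ) + 1) else 0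

/-- The special values. -/
noncomputable def zeta (d : A → ℕ) {m : Bool → A → ℕ} (κ : Rw m → Fin (n + 1)) (a : A)
    (I : Fin (n + 1) →₀ ℕ) : ℕ := ∑ ε : Bool, ∑ i : Fin (m ε a), zt d κ a I ε i

theorem rw_ext {m : Bool → A → ℕ} {x y : Rw m} (h : x.1 = y.1) (h2 : x.2.1 = y.2.1)
    (h3 : (x.2.2 : ℕ) = y.2.2) : x = y := by
  obtain ⟨ε, a, i⟩ := x
  obtain ⟨ε', a', i'⟩ := y
  dsimp only at h h2 h3
  subst h
  subst h2
  have := Fin.ext h3
  subst this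
  rfl

section

variable {d : A → ℕ} {m : Bool → A → ℕ} {κ : Rw m → Fin (n + 1)}

theorem zt_pos {a : A} {I : Fin (n + 1) →₀ ℕ} {ε : Bool} {i : Fin (m ε a)}
    (h : I = JJ (d a) ε i (κ ⟨ε, a, i⟩)) : zt d κ a I ε i = 2 ^ ((i : ℕ) + 1) := if_pos h

theorem zt_neg {a : A} {I : Fin (n + 1) →₀ ℕ} {ε : Bool} {i : Fin (m ε a)}
    (h : I ≠ JJ (d a) ε i (κ ⟨ε, a, i⟩)) : zt d κ a I ε i = 0 := if_neg h

theorem zeta_ge (ε : Bool) (a : A) (i : Fin (m ε a)) :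
    2 ^ ((i : ℕ) + 1) ≤ zeta d κ a (JJ (d a) ε i (κ ⟨ε, a, i⟩)) := by
  have h1 : zt d κ a (JJ (d a) ε i (κ ⟨ε, a, i⟩)) ε i = 2 ^ ((i : ℕ) + 1) := zt_pos rfl
  rw [← h1]
  unfold zeta
  refine le_trans ?_ (Finset.single_le_sum (s := Finset.univ) (a := ε)
    (f := fun ε' => ∑ j : Fin (m ε' a), zt d κ a (JJ (d a) ε i (κ ⟨ε, a, i⟩)) ε' j)
    (fun _ _ => Nat.zero_le _) (Finset.mem_univ _))
  exact Finset.single_le_sum (s := Finset.univ) (a := i)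
    (f := fun j : Fin (m ε a) => zt d κ a (JJ (d a) ε i (κ ⟨ε, a, i⟩)) ε j)
    (fun _ _ => Nat.zero_le _) (Finset.mem_univ _)

theorem zeta_eq_zero {a : A} {I : Fin (n + 1) →₀ ℕ}
    (h : ∀ (ε : Bool) (i : Fin (m ε a)), I ≠ JJ (d a) ε i (κ ⟨ε, a, i⟩)) : zeta d κ a I = 0 := by
  unfold zeta
  exact Finset.sum_eq_zero fun ε _ => Finset.sum_eq_zero fun i _ => zt_neg (h ε i)

/-- The diagonal. -/
theorem diag (hn : 1 ≤ n) (hκ : Asg d m κ) (ρ : Rw m) :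
    2 ^ ((ρ.2.2 : ℕ) + 1) ≤ Mx (S := ℕ) d κ (cut d m (zeta d κ)) ρ ρ := by
  have h0 := ρ.2.2.2
  have h1 := hκ.le ρ.1 ρ.2.1
  have h2 : ¬ BadS (d ρ.2.1) (fun ε => m ε ρ.2.1) (JJ (d ρ.2.1) ρ.1 ρ.2.2 (κ ρ)) := by
    by_cases h3 : κ ρ = e2 (!ρ.1)
    · obtain ⟨h4, h5, -⟩ := hκ.sp ρ h3
      rw [h3, JJ_not, h4]
      exact not_bad_special hn (mm := fun ε => m ε ρ.2.1) h5
    · exact not_bad_other (hκ.ne ρ) h3
  unfold Mx
  rw [if_pos rfl]
  unfold cut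
  rw [if_pos ⟨JJ_deg _ (by omega) _, h2⟩]
  calc 2 ^ ((ρ.2.2 : ℕ) + 1) ≤ zeta d κ ρ.2.1 (JJ (d ρ.2.1) ρ.1 ρ.2.2 (κ ρ)) :=
        zeta_ge ρ.1 ρ.2.1 ρ.2.2
    _ = zeta d κ ρ.2.1 (JJ (d ρ.2.1) ρ.1 ρ.2.2 (κ ρ)) * 1 := (mul_one _).symm
    _ ≤ _ := Nat.mul_le_mul_left _ (by simp)

theorem bool_eq {ε ε' : Bool} (h : ε' ≠ ε) : ε' = !ε := by
  revert h
  cases ε <;> cases ε' <;> simp

/-- The other entries for the same coordinate. -/
theorem off_same (hn : 1 ≤ n) (hκ : Asg d m κ) {ρ x : Rw m} (hx : x.1 = ρ.1) (hne : x ≠ ρ) :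
    Mx (S := ℕ) d κ (cut d m (zeta d κ)) ρ x = 0 := by
  obtain ⟨ε, a, i⟩ := ρ
  have h0 := i.2
  have h1 := hκ.le ε a
  unfold Mx
  rw [if_pos hx]
  dsimp only at hx ⊢
  unfold cut
  split_ifs with hc
  swap
  · rw [zero_mul]
  have hnb := hc.2
  rw [zeta_eq_zero, zero_mul]
  rintro ε' j hJ
  have hy0 := j.2
  have hy1 := hκ.le ε' a
  by_cases h3 : κ x = e2 (!ε)
  · -- the special column
    rw [h3, JJ_not] at hJ hnb
    have h4 : (i : ℕ) + 1 = m ε a := by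
      by_contra hcon
      exact hnb ⟨ε, (i : ℕ) + 1, by dsimp only; omega, rfl⟩
    have h5 : κ ⟨ε', a, j⟩ = e2 (!ε') := by
      rcases MM_eq_JJ hJ with h5 | h5
      · exact absurd h5 (hκ.ne ⟨ε', a, j⟩)
      · exact h5
    obtain ⟨h6, h7, h8⟩ := hκ.sp ⟨ε', a, j⟩ h5
    dsimp only at h6 h7 h8
    by_cases hε : ε' = ε
    · apply hne
      subst hε
      have h9 : (⟨ε', a, j⟩ : Rw m) = x := hκ.inj _ x hx.symm (by rw [h5, h3])
      rw [← h9]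
      exact rw_ext rfl rfl (by dsimp only; omega)
    · have hε' : ε = !ε' := bool_eq (Ne.symm hε)
      subst hε'
      have h9 := h8 i h4
      apply hne
      refine hκ.inj x _ hx ?_
      rw [h9, h3, Bool.not_not]
  · have h4 : κ x ≠ e2 ε := by
      rw [← hx]
      exact hκ.ne x
    obtain ⟨h5, h6⟩ := JJ_inj hn h4 h3 (by omega) hJ
    rcases h6 with ⟨h6, h7⟩ | ⟨h6, h7⟩
    · apply hne
      subst h6
      have h8 : (⟨ε', a, j⟩ : Rw m) = x := hκ.inj _ x hx.symm h5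
      rw [← h8]
      exact rw_ext rfl rfl h7
    · have h8 := hκ.le1 ε a
      subst h6
      have h9 := hκ.eqs ⟨ε, a, i⟩ (by dsimp only; omega) (by dsimp only; omega) j
        (by dsimp only; omega)
      dsimp only at h9
      apply hne
      refine hκ.inj x _ hx ?_
      rw [← h5, h9]

/-- The entries for the other coordinate. -/
theorem off_not (hn : 1 ≤ n) (hκ : Asg d m κ) {ρ x : Rw m} (hx : x.1 ≠ ρ.1) :
    Mx (S := ℕ) d κ (cut d m (zeta d κ)) ρ x ≤ 2 ^ (ρ.2.2 : ℕ) ∧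
      (Mx (S := ℕ) d κ (cut d m (zeta d κ)) ρ x ≠ 0 → 1 ≤ (ρ.2.2 : ℕ) ∧
        ∃ y : Rw m, y.1 = ρ.1 ∧ y.2.1 = ρ.2.1 ∧ (y.2.2 : ℕ) + 1 = ρ.2.2 ∧ κ y = κ x) := by
  classical
  have h0 := ρ.2.2.2
  have h1 := hκ.le ρ.1 ρ.2.1
  have hx' : x.1 = !ρ.1 := by
    revert hx
    cases x.1 <;> cases ρ.1 <;> simp
  unfold Mx
  rw [if_neg hx]
  by_cases hi : 1 ≤ (ρ.2.2 : ℕ)
  swap
  · rw [if_neg hi]
    exact ⟨Nat.zero_le _, fun h => absurd rfl h⟩
  rw [if_pos hi]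
  have hne : κ x ≠ e2 (!ρ.1) := by
    rw [← hx']
    exact hκ.ne x
  by_cases h3 : κ x = e2 ρ.1
  · have h4 : cut d m (zeta d κ) ρ.2.1 (JJ (d ρ.2.1) ρ.1 (ρ.2.2 - 1) (κ x)) = 0 := by
      unfold cut
      rw [if_neg]
      rintro ⟨-, h5⟩
      apply h5
      rw [h3, JJ_self _ (by omega)]
      exact ⟨ρ.1, _, by dsimp only; omega, rfl⟩
    rw [h4, zero_mul]
    exact ⟨Nat.zero_le _, fun h => absurd rfl h⟩
  · rw [MM_other h3 hne]
    have h5 : cut d m (zeta d κ) ρ.2.1 (JJ (d ρ.2.1) ρ.1 (ρ.2.2 - 1) (κ x)) =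
        zeta d κ ρ.2.1 (JJ (d ρ.2.1) ρ.1 (ρ.2.2 - 1) (κ x)) := by
      unfold cut
      rw [if_pos ⟨JJ_deg _ (by omega) _, not_bad_other h3 hne⟩]
    rw [h5]
    simp only [Nat.cast_zero, zero_add, mul_one]
    obtain ⟨ε, a, i⟩ := ρ
    dsimp only at *
    have h6 : zeta d κ a (JJ (d a) ε ((i : ℕ) - 1) (κ x)) =
        if κ ⟨ε, a, ⟨(i : ℕ) - 1, by omega⟩⟩ = κ x then 2 ^ (i : ℕ) else 0 := by
      unfold zeta
      have hterm : ∀ (ε' : Bool) (j : Fin (m ε' a)),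
          JJ (d a) ε ((i : ℕ) - 1) (κ x) = JJ (d a) ε' j (κ ⟨ε', a, j⟩) →
            κ ⟨ε', a, j⟩ = κ x ∧ ε' = ε ∧ (j : ℕ) = i - 1 := by
        intro ε' j hJ
        have h7 := hκ.le ε' a
        have h8 := j.2
        obtain ⟨h9, h10⟩ := JJ_inj hn h3 hne (by omega) hJ
        rcases h10 with ⟨h10, h11⟩ | ⟨h10, h11⟩
        · exact ⟨h9, h10, h11⟩
        · exfalso
          have h12 := hκ.le1 ε a
          subst h10
          omega
      rw [Finset.sum_eq_single ε]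
      · rw [Finset.sum_eq_single (⟨(i : ℕ) - 1, by omega⟩ : Fin (m ε a))]
        · by_cases h7 : κ ⟨ε, a, ⟨(i : ℕ) - 1, by omega⟩⟩ = κ x
          · rw [if_pos h7, zt_pos (by rw [h7])]
            congr 1
            dsimp only
            omega
          · rw [if_neg h7, zt_neg]
            intro hJ
            exact h7 (hterm _ _ hJ).1
        · intro j _ hj
          refine zt_neg fun hJ => hj (Fin.ext ?_)
          exact (hterm _ _ hJ).2.2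
        · intro h; exact absurd (Finset.mem_univ _) h
      · intro ε' _ hε
        refine Finset.sum_eq_zero fun j _ => zt_neg fun hJ => ?_
        exact hε (hterm _ _ hJ).2.1
      · intro h; exact absurd (Finset.mem_univ _) h
    rw [h6]
    split_ifs with h7
    · refine ⟨le_rfl, fun _ => ⟨hi, ⟨ε, a, ⟨(i : ℕ) - 1, by omega⟩⟩, rfl, rfl, ?_, h7⟩⟩
      dsimp only
      omega
    · exact ⟨Nat.zero_le _, fun h => absurd rfl h⟩

/-- The diagonal dominates. -/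
theorem dom [Fintype A] [DecidableEq (Rw m)] (hn : 1 ≤ n) (hκ : Asg d m κ) (ρ : Rw m) :
    ∑ x ∈ Finset.univ.erase ρ, Mx (S := ℕ) d κ (cut d m (zeta d κ)) ρ x <
      Mx (S := ℕ) d κ (cut d m (zeta d κ)) ρ ρ := by
  classical
  refine lt_of_lt_of_le ?_ (diag hn hκ ρ)
  obtain ⟨T, hT⟩ : ∃ T : Finset (Rw m), T = (Finset.univ.erase ρ).filter
    (fun x => Mx (S := ℕ) d κ (cut d m (zeta d κ)) ρ x ≠ 0) := ⟨_, rfl⟩
  have h1 : ∑ x ∈ Finset.univ.erase ρ, Mx (S := ℕ) d κ (cut d m (zeta d κ)) ρ x =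
      ∑ x ∈ T, Mx (S := ℕ) d κ (cut d m (zeta d κ)) ρ x := by
    rw [hT]
    exact (Finset.sum_filter_ne_zero _).symm
  have hm : ∀ x ∈ T, x.1 ≠ ρ.1 ∧ Mx (S := ℕ) d κ (cut d m (zeta d κ)) ρ x ≠ 0 := by
    intro x hx
    rw [hT, Finset.mem_filter, Finset.mem_erase] at hx
    refine ⟨fun h => ?_, hx.2⟩
    exact hx.2 (off_same hn hκ h hx.1.1)
  have h2 : T.card ≤ 1 := by
    rw [Finset.card_le_one]
    intro x hx y hy
    obtain ⟨hx1, hx2⟩ := hm x hx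
    obtain ⟨hy1, hy2⟩ := hm y hy
    obtain ⟨-, x', hx3, hx4, hx5, hx6⟩ := (off_not hn hκ hx1).2 hx2
    obtain ⟨-, y', hy3, hy4, hy5, hy6⟩ := (off_not hn hκ hy1).2 hy2
    have h3 : x' = y' := rw_ext (hx3.trans hy3.symm) (hx4.trans hy4.symm) (by omega)
    refine hκ.inj x y ?_ ?_
    · revert hx1 hy1
      cases x.1 <;> cases y.1 <;> cases ρ.1 <;> simp
    · rw [← hx6, ← hy6, h3]
  rw [h1]
  calc ∑ x ∈ T, Mx (S := ℕ) d κ (cut d m (zeta d κ)) ρ x ≤ ∑ _x ∈ T, 2 ^ (ρ.2.2 : ℕ) :=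
        Finset.sum_le_sum fun x hx => (off_not hn hκ (hm x hx).1).1
    _ = T.card * 2 ^ (ρ.2.2 : ℕ) := by rw [Finset.sum_const, smul_eq_mul]
    _ ≤ 1 * 2 ^ (ρ.2.2 : ℕ) := Nat.mul_le_mul_right _ h2
    _ < 2 ^ ((ρ.2.2 : ℕ) + 1) := by
        rw [one_mul]
        exact Nat.pow_lt_pow_right (by norm_num) (by omega)

/-- The matrix for generic coefficients is invertible. -/
theorem det_Mx [Fintype A] [DecidableEq (Rw m)] (hn : 1 ≤ n) (hκ : Asg d m κ) {k Ω : Type}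
    [Field k] [CharZero k] [Field Ω] [Algebra k Ω] {z : A × (Fin (n + 1) →₀ ℕ) → Ω}
    (hz : AlgebraicIndependent k z) : (Mx d κ (cut d m fun a I => z (a, I))).det ≠ 0 := by
  classical
  -- the special matrix
  obtain ⟨N, hN⟩ : ∃ N : Matrix (Rw m) (Rw m) ℤ,
    N = Mx d κ (cut d m fun a I => ((zeta d κ a I : ℕ) : ℤ)) := ⟨_, rfl⟩
  have hNe : ∀ (S : Type) [CommRing S], N.map (Int.castRingHom S) =
      Mx d κ (cut d m fun a I => ((zeta d κ a I : ℕ) : S)) := by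
    intro S _
    rw [hN, Mx_map]
    congr 2
    funext a I
    simp
  have hNN : ∀ (S : Type) [CommRing S] (ρ x : Rw m),
      Mx d κ (cut d m fun a I => ((zeta d κ a I : ℕ) : S)) ρ x =
        ((Mx (S := ℕ) d κ (cut d m (zeta d κ)) ρ x : ℕ) : S) := by
    intro S _ ρ x
    have h1 := Mx_map (Nat.castRingHom S) d κ (zeta d κ)
    have h2 := congrFun (congrFun h1 ρ) x
    rw [Matrix.map_apply] at h2
    exact h2.symm
  have hR : (N.map (Int.castRingHom ℝ)).det ≠ 0 := by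
    refine det_ne_zero_of_sum_row_lt_diag fun ρ => ?_
    rw [hNe, hNN]
    have h1 : ∀ x, ‖Mx d κ (cut d m fun a I => ((zeta d κ a I : ℕ) : ℝ)) ρ x‖ =
        ((Mx (S := ℕ) d κ (cut d m (zeta d κ)) ρ x : ℕ) : ℝ) := by
      intro x
      rw [hNN, Real.norm_natCast]
    rw [Finset.sum_congr rfl fun x _ => h1 x, Real.norm_natCast]
    exact_mod_cast dom hn hκ ρ
  have hZ : N.det ≠ 0 := by
    intro h0
    apply hR
    rw [← RingHom.mapMatrix_apply, ← RingHom.map_det, h0, map_zero]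
  have hk : (Mx d κ (cut d m fun a I => ((zeta d κ a I : ℕ) : k))).det ≠ 0 := by
    rw [← hNe, ← RingHom.mapMatrix_apply, ← RingHom.map_det]
    intro h0
    apply hZ
    exact (Int.cast_eq_zero (α := k)).1 h0
  -- the generic determinant
  obtain ⟨P, hP⟩ : ∃ P : MvPolynomial (A × (Fin (n + 1) →₀ ℕ)) k, P = (Mx d κ (cut d m
    fun a I => (X (a, I) : MvPolynomial (A × (Fin (n + 1) →₀ ℕ)) k))).det := ⟨_, rfl⟩
  have hmap : ∀ {S : Type} [Field S] [Algebra k S] (w : A × (Fin (n + 1) →₀ ℕ) → S),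
      aeval w P = (Mx d κ (cut d m fun a I => w (a, I))).det := by
    intro S _ _ w
    have h1 := RingHom.map_det (aeval w : MvPolynomial (A × (Fin (n + 1) →₀ ℕ)) k →ₐ[k] S).toRingHom
      (Mx d κ (cut d m fun a I => (X (a, I) : MvPolynomial (A × (Fin (n + 1) →₀ ℕ)) k)))
    rw [hP]
    refine h1.trans ?_
    congr 1
    rw [RingHom.mapMatrix_apply, Mx_map]
    congr 2
    funext a I
    exact aeval_X w (a, I)
  intro h0
  have h3 : P = 0 := by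
    apply hz
    rw [map_zero]
    exact (hmap z).trans h0
  apply hk
  rw [← hmap (fun p : A × (Fin (n + 1) →₀ ℕ) => ((zeta d κ p.1 p.2 : ℕ) : k)), h3, map_zero]

end

end Pool.Agent.Y735.LE
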