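import Pool.Agent.Y735.LE.Mx

/-!
The linear system for the lines that are highly tangent to generic hypersurfaces at two points.
-/

set_option autoImplicit false

open MvPolynomial

namespace Pool.Agent.Y735.LE

variable {n : ℕ} {A : Type} {d : A → ℕ} {m : Bool → A → ℕ} {κ : Rw m → Fin (n + 1)}

/-- The linear system can be solved. -/
theorem solve [Fintype A] (hn : 1 ≤ n) (hκ : Asg d m κ) {k Ω : Type} [Field k] [CharZero k]
    [Field Ω] [Algebra k Ω] {z : A × (Fin (n + 1) →₀ ℕ) → Ω} (hz : AlgebraicIndependent k z)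
    {Ft : A → MvPolynomial (Fin (n + 1)) Ω}
    (hF : ∀ a I, (Ft a).coeff I = cut d m (fun a I => z (a, I)) a I)
    (h : A → Bool → ℕ → Ω) :
    ∃ u v : Fin (n + 1) → Ω, ∀ a ε i, i < m ε a →
      coeff (MM (d a) ε i) (∑ l, pderiv l (Ft a) * (C (u l) * X 0 + C (v l) * X 1)) =
        h a ε i := by
  classical
  have hdet := det_Mx (k := k) hn hκ hz
  obtain ⟨w, hw⟩ : ∃ w : Rw m → Ω, (Mx d κ (cut d m fun a I => z (a, I))).mulVec w =
      fun ρ => h ρ.2.1 ρ.1 (ρ.2.2 : ℕ) := by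
    refine ⟨(Mx d κ (cut d m fun a I => z (a, I)))⁻¹.mulVec
      (fun ρ => h ρ.2.1 ρ.1 (ρ.2.2 : ℕ)), ?_⟩
    rw [Matrix.mulVec_mulVec, Matrix.mul_nonsing_inv _ (isUnit_iff_ne_zero.2 hdet),
      Matrix.one_mulVec]
  obtain ⟨u, hu⟩ : ∃ u : Bool → Fin (n + 1) → Ω, ∀ ε l, u ε l =
    ∑ x : Rw m, if x.1 = ε ∧ κ x = l then w x else 0 := ⟨_, fun _ _ => rfl⟩
  refine ⟨u false, u true, fun a ε i hi => ?_⟩
  have hle := hκ.le ε a
  have h1 := congrFun hw ⟨ε, a, ⟨i, hi⟩⟩
  dsimp only at h1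
  rw [← h1]
  -- the coefficient as a sum
  have h2 : ∀ l, coeff (MM (d a) ε i) (pderiv l (Ft a) *
      (C (u false l) * X 0 + C (u true l) * X 1)) = ∑ ε' : Bool, u ε' l *
        coeff (MM (d a) ε i) (pderiv l (Ft a) * X (e2 ε')) := by
    intro l
    have h3 : pderiv l (Ft a) * (C (u false l) * X 0 + C (u true l) * X 1) =
        C (u false l) * (pderiv l (Ft a) * X (e2 false)) +
          C (u true l) * (pderiv l (Ft a) * X (e2 true)) := by
      rw [e2_false, e2_true]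
      ring
    rw [h3, coeff_add, coeff_C_mul, coeff_C_mul, Fintype.sum_bool, add_comm]
  rw [coeff_sum, Finset.sum_congr rfl fun l _ => h2 l]
  have h4 : ∀ l, ∑ ε' : Bool, u ε' l * coeff (MM (d a) ε i) (pderiv l (Ft a) * X (e2 ε')) =
      ∑ x : Rw m, if κ x = l then
        w x * coeff (MM (d a) ε i) (pderiv l (Ft a) * X (e2 x.1)) else 0 := by
    intro l
    have h5 : ∀ ε' : Bool, u ε' l * coeff (MM (d a) ε i) (pderiv l (Ft a) * X (e2 ε')) =
        ∑ x : Rw m, if x.1 = ε' then (if κ x = l then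
          w x * coeff (MM (d a) ε i) (pderiv l (Ft a) * X (e2 x.1)) else 0) else 0 := by
      intro ε'
      rw [hu, Finset.sum_mul]
      refine Finset.sum_congr rfl fun x _ => ?_
      by_cases h6 : x.1 = ε'
      · by_cases h7 : κ x = l
        · rw [if_pos ⟨h6, h7⟩, if_pos h6, if_pos h7, h6]
        · rw [if_neg (fun h8 => h7 h8.2), if_pos h6, if_neg h7, zero_mul]
      · rw [if_neg (fun h8 => h6 h8.1), if_neg h6, zero_mul]
    rw [Finset.sum_congr rfl fun ε' _ => h5 ε', Finset.sum_comm]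
    refine Finset.sum_congr rfl fun x _ => ?_
    rw [Finset.sum_ite_eq, if_pos (Finset.mem_univ _)]
  rw [Finset.sum_congr rfl fun l _ => h4 l, Finset.sum_comm]
  change _ = ∑ x, Mx d κ (cut d m fun a I => z (a, I)) ⟨ε, a, ⟨i, hi⟩⟩ x * w x
  refine Finset.sum_congr rfl fun x _ => ?_
  rw [Finset.sum_ite_eq, if_pos (Finset.mem_univ _), mul_comm]
  congr 1
  unfold Mx
  dsimp only
  by_cases h5 : x.1 = ε
  · rw [if_pos h5, h5, coeff_self hn _ _ _ (by omega), if_pos (by omega), hF]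
  · have h6 : x.1 = !ε := bool_eq h5
    rw [if_neg h5, h6, coeff_not hn _ _ _ (by omega)]
    by_cases h7 : 1 ≤ i
    · rw [if_pos h7, if_pos h7, hF]
    · rw [if_neg h7, if_neg h7]

end Pool.Agent.Y735.LE
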