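import Pool.Agent.Y735.LE.AsgF
import Pool.Agent.Y735.LE.CountF
import Pool.Agent.Y735.LB.Top

/-!
Lines that meet the boundary of a generic pair in few points, and the exact bound for the
finiteness of the integral points of bounded degree.
-/

set_option autoImplicit false

open MvPolynomial LinearAlgebra.Projectivization

namespace Pool.Agent.Y735.LE

variable {k K : Type} [Field k] [Field K] [IsAlgClosed K] [CharZero K] [Algebra k K] {n : ℕ}
  {A : Type} [Fintype A] {d : A → ℕ}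

/-- Let `F a` be generic forms of degrees `d a` in `n + 1` variables. There is a line in `F c = 0`,
`c ∈ C`, that meets the union of `F b = 0`, `b ∉ C`, in at most `2 + (∑ d a + |C| - 2 n)` points. -/
theorem exists_line (hn : 1 ≤ n) {C : Finset A} (hd : ∀ c ∈ C, 1 ≤ d c)
    (hC : ∑ c ∈ C, (d c + 1) ≤ 2 * (n - 1))
    {F : A → MvPolynomial (Fin (n + 1)) K} (hF : ∀ a, (F a).IsHomogeneous (d a))
    (I0 : A → Fin (n + 1) →₀ ℕ) (h0 : ∀ a, (F a).coeff (I0 a) ≠ 0)
    (hind : AlgebraicIndependent k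
      fun p : (a : A) × {I : Fin (n + 1) →₀ ℕ // I.degree = d a ∧ I ≠ I0 a} =>
        (F p.1).coeff p.2.1 / (F p.1).coeff (I0 p.1)) :
    ∃ W : Submodule K (Fin (n + 1) → K), Module.finrank K W = 2 ∧
      (∀ c ∈ C, ∀ v ∈ W, eval v (F c) = 0) ∧
      {p : ℙ K (Fin (n + 1) → K) | p.rep ∈ W ∧ ∃ b, b ∉ C ∧ eval p.rep (F b) = 0}.encard ≤
        ((2 + (∑ a, d a + C.card - 2 * n) : ℕ) : ℕ∞) := by
  classical
  have hck : CharZero k := (algebraMap k K).charZero
  obtain ⟨m, hm1, hm2, hm3, hm4, hm5, hm6⟩ := exists_m C hd hC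
  obtain ⟨κ, hκ⟩ := exists_asg hn C hm1 hm2 hm3 hm4 hm5
  obtain ⟨P, Q, hPQ, h1⟩ := exists_lineF hn hκ hF I0 h0 hind
  obtain ⟨W, hW1, hW2, hW3⟩ := count hPQ hF (fun a => (h1 a).1) (fun a => (h1 a).2) hm2 hm3
  refine ⟨W, hW1, hW2, hW3.trans ?_⟩
  rw [Nat.cast_le]
  omega

/-- The exact bound. -/
theorem iff_IPts (hn : 1 ≤ n) {r : ℕ} (hr : 0 < r) {C : Finset A} (hd : ∀ c ∈ C, 1 ≤ d c)
    (hC : ∑ c ∈ C, (d c + 1) ≤ 2 * (n - 1))
    {F : A → MvPolynomial (Fin (n + 1)) K} (hF : ∀ a, (F a).IsHomogeneous (d a))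
    (I0 : A → Fin (n + 1) →₀ ℕ) (h0 : ∀ a, (F a).coeff (I0 a) ≠ 0)
    (hind : AlgebraicIndependent k
      fun p : (a : A) × {I : Fin (n + 1) →₀ ℕ // I.degree = d a ∧ I ≠ I0 a} =>
        (F p.1).coeff p.2.1 / (F p.1).coeff (I0 p.1)) :
    (∀ T : Finset K, (LB.IPts (∅ : Set (MvPolynomial (Fin (n + 1)) (algebraicClosure k K))) F d C r
      (Subring.closure ((algebraicClosure k K : Set K) ∪ (T : Set K)))).Finite) ↔
      2 * n + 2 * r ≤ ∑ a, d a + C.card := by
  constructor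
  · intro h
    by_contra hcon
    obtain ⟨W, hW1, hW2, hW3⟩ := exists_line hn hd hC hF I0 h0 hind
    obtain ⟨T, hT⟩ := LB.conv_line1 (∅ : Set (MvPolynomial (Fin (n + 1)) (algebraicClosure k K)))
      hF (C := C) hr hW1 (fun f hf => absurd hf (Set.notMem_empty f)) hW2 (hW3.trans (by
        rw [Nat.cast_le]
        omega))
    exact hT ((h T).subset fun p hp => hp.1)
  · intro h T
    exact LB.fin_IPts C h _ (fun f hf => absurd hf (Set.notMem_empty f))
      (Pool.Agent.TH145.GC.dimLE_univ _ n) F hF I0 h0 hind T _ le_rfl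

/-- If the sum of the degrees is small, there are infinitely many integral points over some ring
that is finitely generated over the integers. -/
theorem inf_IPts (hn : 1 ≤ n) {r : ℕ} (hr : 0 < r) {C : Finset A} (hd : ∀ c ∈ C, 1 ≤ d c)
    (hC : ∑ c ∈ C, (d c + 1) ≤ 2 * (n - 1)) (h : ∑ a, d a + C.card + 2 ≤ 2 * n + 2 * r)
    {F : A → MvPolynomial (Fin (n + 1)) K} (hF : ∀ a, (F a).IsHomogeneous (d a))
    (I0 : A → Fin (n + 1) →₀ ℕ) (h0 : ∀ a, (F a).coeff (I0 a) ≠ 0)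
    (hind : AlgebraicIndependent k
      fun p : (a : A) × {I : Fin (n + 1) →₀ ℕ // I.degree = d a ∧ I ≠ I0 a} =>
        (F p.1).coeff p.2.1 / (F p.1).coeff (I0 p.1)) :
    ∃ T : Finset K, (LB.IPts (∅ : Set (MvPolynomial (Fin (n + 1)) (algebraicClosure k K))) F d C r
      (Subring.closure (T : Set K))).Infinite := by
  obtain ⟨W, hW1, hW2, hW3⟩ := exists_line hn hd hC hF I0 h0 hind
  obtain ⟨T, hT⟩ := LB.conv_line2 (∅ : Set (MvPolynomial (Fin (n + 1)) (algebraicClosure k K)))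
    hF (C := C) hr hW1 (fun f hf => absurd hf (Set.notMem_empty f)) hW2 (hW3.trans (by
      rw [Nat.cast_le]
      omega))
  exact ⟨T, hT.mono fun p hp => hp.1⟩

end Pool.Agent.Y735.LE
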